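import Pool.Agent.Run7.h566.MM.Num

/-!
# Matrix units (helper566)
-/

set_option autoImplicit false

namespace Pool.Agent.Run7.h566.MM

open Finset

lemma unit_mul {P Q S : Type} [DecidableEq P] [DecidableEq Q] [DecidableEq S] [Fintype Q]
    (i l : P) (j j' : Q) (k k' : S) :
    (Matrix.single i j (1 : ℂ) * Matrix.single j' k (1 : ℂ)) l k' =
      if j = j' ∧ k = k' ∧ l = i then 1 else 0 := by
  rw [Matrix.mul_apply, Finset.sum_eq_single j]
  · simp only [Matrix.single_apply]
    by_cases h1 : j = j'
    · by_cases h2 : k = k'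
      · by_cases h3 : i = l
        · simp [h1, h2, h3]
        · have h3' : ¬ l = i := fun h => h3 h.symm
          simp [h3, h3']
      · simp [h2]
    · have h1' : ¬ j' = j := fun h => h1 h.symm
      simp [h1, h1']
  · intro y _ hy
    simp [Matrix.single_apply, hy.symm]
  · simp

end Pool.Agent.Run7.h566.MM
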