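import Pool.Agent.Run7.h566.MM.Num

/-!
# Limits towards the exponent (helper566)
-/

set_option autoImplicit false

namespace Pool.Agent.Run7.h566.MM

open Finset Filter Pool.Agent.H515R2.MMR Pool.Agent.Y538.Par

/-- `τ` is an admissible exponent. -/
def Adm (τ : ℝ) : Prop := ∃ C : ℝ, ∀ n : ℕ, (rk n : ℝ) ≤ C * (n : ℝ) ^ τ

lemma Adm.omega_le {τ : ℝ} (h : Adm τ) : omega ≤ τ := csInf_le omega_set_bddBelow h

lemma exists_adm {ε : ℝ} (hε : 0 < ε) : ∃ τ, Adm τ ∧ τ < omega + ε :=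
  exists_lt_of_csInf_lt omega_set_nonempty (by
    show omega < omega + ε
    linarith)

lemma Adm.const {τ : ℝ} (h : Adm τ) : ∃ C : ℝ, 1 ≤ C ∧ ∀ n : ℕ, (rk n : ℝ) ≤ C * (n : ℝ) ^ τ := by
  obtain ⟨C, hC⟩ := h
  refine ⟨C, ?_, hC⟩
  have h1 := hC 1
  have h2 : (1 : ℝ) ≤ rk 1 := by exact_mod_cast one_le_rk le_rfl
  simp at h1
  linarith

/-- Passing to the limit in an inequality which holds for all admissible exponents. -/
lemma le_of_adm {g : ℝ → ℝ} (hg : Continuous g) {x : ℝ} (h : ∀ τ, Adm τ → x ≤ g τ) :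
    x ≤ g omega := by
  by_contra hcon
  push Not at hcon
  have h1 : ∀ᶠ τ in nhds omega, g τ < x := (hg.tendsto omega).eventually (gt_mem_nhds hcon)
  obtain ⟨δ, hδ, hball⟩ := Metric.eventually_nhds_iff.mp h1
  obtain ⟨τ, hτ, hτ'⟩ := exists_adm hδ
  have h2 := hτ.omega_le
  have h3 : dist τ omega < δ := by
    rw [Real.dist_eq, abs_of_nonneg (by linarith)]
    linarith
  have := hball h3
  have h4 := h τ hτ
  linarith

lemma omega_le_three : omega ≤ 3 := by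
  apply Adm.omega_le
  refine ⟨1, fun n => ?_⟩
  have := rk_le (hasRank_cube n)
  rw [one_mul]
  have h : ((n : ℝ) ^ (3 : ℝ)) = ((n ^ 3 : ℕ) : ℝ) := by
    push_cast
    exact_mod_cast Real.rpow_natCast (n : ℝ) 3
  rw [h]
  exact_mod_cast this

end Pool.Agent.Run7.h566.MM
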