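import Pool.Agent.Run7.h566.MM.Limit

/-!
# The asymptotic rank of sums of tensors (helper566)
-/

set_option autoImplicit false

namespace Pool.Agent.Run7.h566.MM

open Finset Pool.Agent.H515R2.MMR Pool.Agent.Y538.Par

section
variable {X Y Z X' Y' Z' : Type}

/-- `T` is a sum of rank one tensors, indexed by `κ`. -/
def Tk (T : X → Y → Z → ℂ) (κ : Type) [Fintype κ] : Prop :=
  ∃ (u : κ → X → ℂ) (v : κ → Y → ℂ) (w : κ → Z → ℂ), ∀ x y z,
    T x y z = ∑ t, u t x * v t y * w t z

/-- The powers of `T` over a finite set `J` have rank at most `C * v ^ |J|`. -/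
def Gr (T : X → Y → Z → ℂ) (v : ℝ) : Prop :=
  ∃ C : ℝ, ∀ (J : Type) [Fintype J], ∃ (κ : Type) (_ : Fintype κ),
    (Fintype.card κ : ℝ) ≤ C * v ^ Fintype.card J ∧
      Tk (fun (x : J → X) (y : J → Y) (z : J → Z) => ∏ t, T (x t) (y t) (z t)) κ

lemma Gr.zero : Gr (fun (_ : X) (_ : Y) (_ : Z) => (0 : ℂ)) 0 := by
  refine ⟨1, fun J _ => ?_⟩
  rcases isEmpty_or_nonempty J with h | h
  · refine ⟨Unit, inferInstance, by simp, fun _ _ => 1, fun _ _ => 1, fun _ _ => 1, ?_⟩
    intro x y z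
    simp
  · refine ⟨Empty, inferInstance, ?_, fun _ _ => 1, fun _ _ => 1, fun _ _ => 1, ?_⟩
    · simp
    · intro x y z
      simp

lemma Gr.add {T T' : X → Y → Z → ℂ} {v v' : ℝ} (h : Gr T v) (h' : Gr T' v') (hv : 0 ≤ v)
    (_hv' : 0 ≤ v') : Gr (fun x y z => T x y z + T' x y z) (v + v') := by
  classical
  obtain ⟨C, h⟩ := h
  obtain ⟨C', h'⟩ := h'
  have hC : 0 ≤ C := by
    obtain ⟨κ, _, h1, -⟩ := h Empty
    simp only [Fintype.card_eq_zero, pow_zero, mul_one] at h1
    exact le_trans (Nat.cast_nonneg _) h1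
  have hC' : 0 ≤ C' := by
    obtain ⟨κ, _, h1, -⟩ := h' Empty
    simp only [Fintype.card_eq_zero, pow_zero, mul_one] at h1
    exact le_trans (Nat.cast_nonneg _) h1
  refine ⟨C * C', fun J _ => ?_⟩
  have h1 := fun A : Finset J => h {t // t ∈ A}
  have h2 := fun A : Finset J => h' {t // t ∉ A}
  choose κ hκ hκc u v1 w H using h1
  choose κ' hκ' hκc' u' v1' w' H' using h2
  refine ⟨Σ A : Finset J, κ A × κ' A, inferInstance, ?_,
    fun t x => u t.1 t.2.1 (fun s => x s.1) * u' t.1 t.2.2 (fun s => x s.1),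
    fun t x => v1 t.1 t.2.1 (fun s => x s.1) * v1' t.1 t.2.2 (fun s => x s.1),
    fun t x => w t.1 t.2.1 (fun s => x s.1) * w' t.1 t.2.2 (fun s => x s.1), ?_⟩
  · rw [Fintype.card_sigma]
    push_cast
    calc ∑ A : Finset J, (Fintype.card (κ A × κ' A) : ℝ)
        ≤ ∑ A : Finset J, (C * C') * (v ^ A.card * v' ^ ((univ : Finset J).card - A.card)) := by
          refine Finset.sum_le_sum fun A _ => ?_
          rw [Fintype.card_prod]
          push_cast
          have e1 : Fintype.card {t // t ∈ A} = A.card := Fintype.card_coe A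
          have e2 : Fintype.card {t // t ∉ A} = (univ : Finset J).card - A.card := by
            rw [Fintype.card_subtype_compl, Fintype.card_coe, Finset.card_univ]
          have g1 := hκc A
          have g2 := hκc' A
          rw [e1] at g1
          rw [e2] at g2
          calc (Fintype.card (κ A) : ℝ) * (Fintype.card (κ' A) : ℝ) ≤
              (C * v ^ A.card) * (C' * v' ^ ((univ : Finset J).card - A.card)) :=
                mul_le_mul g1 g2 (Nat.cast_nonneg _) (by positivity)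
            _ = _ := by ring
      _ = C * C' * (v + v') ^ Fintype.card J := by
          rw [← Finset.mul_sum, ← Finset.card_univ, ← Finset.sum_pow_mul_eq_add_pow,
            Finset.powerset_univ]
  · intro x y z
    change (∏ t, (T (x t) (y t) (z t) + T' (x t) (y t) (z t))) = _
    rw [Finset.prod_add, Finset.powerset_univ, Fintype.sum_sigma]
    refine Finset.sum_congr rfl fun A _ => ?_
    have e1 : ∏ t ∈ A, T (x t) (y t) (z t) =
        ∏ t : {t // t ∈ A}, T (x t.1) (y t.1) (z t.1) :=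
      (Finset.prod_coe_sort A (fun t => T (x t) (y t) (z t))).symm
    have e2 : ∏ t ∈ univ \ A, T' (x t) (y t) (z t) =
        ∏ t : {t // t ∉ A}, T' (x t.1) (y t.1) (z t.1) :=
      Finset.prod_subtype _ (by simp) _
    have e3 : ∏ t : {t // t ∈ A}, T (x t.1) (y t.1) (z t.1) = _ :=
      H A (fun s => x s.1) (fun s => y s.1) (fun s => z s.1)
    have e4 : ∏ t : {t // t ∉ A}, T' (x t.1) (y t.1) (z t.1) = _ :=
      H' A (fun s => x s.1) (fun s => y s.1) (fun s => z s.1)
    rw [e1, e2, e3, e4, Finset.sum_mul_sum, Fintype.sum_prod_type]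
    refine Finset.sum_congr rfl fun t _ => Finset.sum_congr rfl fun t' _ => ?_
    ring

lemma Gr.sum {ι : Type} (s : Finset ι) (T : ι → X → Y → Z → ℂ) (v : ι → ℝ)
    (hv : ∀ i ∈ s, 0 ≤ v i) (h : ∀ i ∈ s, Gr (T i) (v i)) :
    Gr (fun x y z => ∑ i ∈ s, T i x y z) (∑ i ∈ s, v i) := by
  classical
  induction s using Finset.induction_on with
  | empty => simpa using Gr.zero
  | insert i s hi ih =>
    simp only [Finset.sum_insert hi]
    exact Gr.add (h i (mem_insert_self _ _)) (ih (fun j hj => hv j (mem_insert_of_mem hj))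
      (fun j hj => h j (mem_insert_of_mem hj))) (hv i (mem_insert_self _ _))
      (Finset.sum_nonneg fun j hj => hv j (mem_insert_of_mem hj))

/-- `T` arises from the multiplication of `A × B` by `B × C` matrices by substitutions. -/
def Un (T : X → Y → Z → ℂ) (A B C : Type) [Fintype A] [Fintype B] [Fintype C] : Prop :=
  ∃ (α : A → B → X → ℂ) (β : B → C → Y → ℂ) (γ : C → A → Z → ℂ), ∀ x y z,
    T x y z = ∑ a, ∑ b, ∑ c, α a b x * β b c y * γ c a z

variable {A B C A' B' C' κ : Type} [Fintype A] [Fintype B] [Fintype C] [Fintype A'] [Fintype B']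
  [Fintype C'] [Fintype κ]

lemma Un.rank [DecidableEq A] [DecidableEq B] [DecidableEq C] {T : X → Y → Z → ℂ}
    (h : Un T A B C) (h' : HasR A B C κ) : Tk T κ := by
  obtain ⟨α, β, γ, h⟩ := h
  obtain ⟨a, b, c, h'⟩ := h'
  refine ⟨fun t i => ∑ x, ∑ y, a t x y * α x y i,
    fun t i => ∑ x, ∑ y, b t x y * β x y i,
    fun t i => ∑ x, ∑ y, c t x y * γ x y i, fun x y z => ?_⟩
  rw [h]
  have h'' : ∀ (i l : A) (j j' : B) (k k' : C), (1 : ℂ) *
      (if j = j' ∧ k = k' ∧ l = i then (1 : ℂ) else 0) = ∑ t, a t i j * b t j' k * c t k' l := by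
    intro i l j j' k k'
    rw [one_mul]
    exact h' i l j j' k k'
  have h3 := HasR.apply h'' (fun s t => α s t x) (fun s t => β s t y) (fun s t => γ s t z)
  rw [one_mul] at h3
  exact h3

lemma Un.prod {T : X → Y → Z → ℂ} {T' : X' → Y' → Z' → ℂ} (h : Un T A B C)
    (h' : Un T' A' B' C') :
    Un (fun (x : X × X') (y : Y × Y') (z : Z × Z') => T x.1 y.1 z.1 * T' x.2 y.2 z.2)
      (A × A') (B × B') (C × C') := by
  obtain ⟨α, β, γ, h⟩ := h
  obtain ⟨α', β', γ', h'⟩ := h'
  refine ⟨fun a b x => α a.1 b.1 x.1 * α' a.2 b.2 x.2, fun a b x => β a.1 b.1 x.1 * β' a.2 b.2 x.2,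
    fun a b x => γ a.1 b.1 x.1 * γ' a.2 b.2 x.2, fun x y z => ?_⟩
  simp only
  rw [h, h', Finset.sum_mul_sum, Fintype.sum_prod_type]
  refine Finset.sum_congr rfl fun a _ => Finset.sum_congr rfl fun a' _ => ?_
  rw [Finset.sum_mul_sum, Fintype.sum_prod_type]
  refine Finset.sum_congr rfl fun b _ => Finset.sum_congr rfl fun b' _ => ?_
  rw [Finset.sum_mul_sum, Fintype.sum_prod_type]
  refine Finset.sum_congr rfl fun c _ => Finset.sum_congr rfl fun c' _ => ?_
  ring

lemma Un.comp {T : X → Y → Z → ℂ} (h : Un T A B C) (f : X' → X) (g : Y' → Y) (k : Z' → Z) :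
    Un (fun x y z => T (f x) (g y) (k z)) A B C := by
  obtain ⟨α, β, γ, h⟩ := h
  exact ⟨fun a b x => α a b (f x), fun a b x => β a b (g x), fun a b x => γ a b (k x),
    fun x y z => h _ _ _⟩

/-- `T` has the format `m × m × m`. -/
def Loc (T : X → Y → Z → ℂ) (m : ℕ) : Prop :=
  ∃ (τ : Fin m → Fin m → Fin m → ℂ) (u : Fin m → X → ℂ) (v : Fin m → Y → ℂ) (w : Fin m → Z → ℂ),
    ∀ x y z, T x y z = ∑ a, ∑ b, ∑ c, τ a b c * u a x * v b y * w c z

lemma Loc.un1 {T : X → Y → Z → ℂ} {m : ℕ} (h : Loc T m) : Un T (Fin m) Unit (Fin m) := by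
  obtain ⟨τ, u, v, w, h⟩ := h
  refine ⟨fun a _ x => u a x, fun _ b y => v b y, fun b a z => ∑ c, τ a b c * w c z,
    fun x y z => ?_⟩
  rw [h]
  refine Finset.sum_congr rfl fun a _ => ?_
  simp only [Finset.univ_unique, Finset.sum_singleton]
  refine Finset.sum_congr rfl fun b _ => ?_
  rw [Finset.mul_sum]
  refine Finset.sum_congr rfl fun c _ => ?_
  ring

lemma Loc.un2 {T : X → Y → Z → ℂ} {m : ℕ} (h : Loc T m) : Un T (Fin m) (Fin m) Unit := by
  obtain ⟨τ, u, v, w, h⟩ := h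
  refine ⟨fun c b x => ∑ a, τ a b c * u a x, fun b _ y => v b y, fun _ c z => w c z,
    fun x y z => ?_⟩
  rw [h]
  simp only [Fintype.sum_unique, Finset.sum_mul]
  rw [Finset.sum_congr rfl fun a _ => Finset.sum_comm, Finset.sum_comm]
  refine Finset.sum_congr rfl fun c _ => ?_
  rw [Finset.sum_comm]

lemma Loc.un3 {T : X → Y → Z → ℂ} {m : ℕ} (h : Loc T m) : Un T Unit (Fin m) (Fin m) := by
  obtain ⟨τ, u, v, w, h⟩ := h
  refine ⟨fun _ a x => u a x, fun a c y => ∑ b, τ a b c * v b y, fun c _ z => w c z,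
    fun x y z => ?_⟩
  rw [h]
  simp only [Finset.univ_unique, Finset.sum_singleton]
  refine Finset.sum_congr rfl fun a _ => ?_
  rw [Finset.sum_comm]
  refine Finset.sum_congr rfl fun c _ => ?_
  rw [Finset.mul_sum, Finset.sum_mul]
  refine Finset.sum_congr rfl fun b _ => ?_
  ring

end

/-- The powers of a tensor of format `m × m × m`. -/
lemma Loc.pow {X Y Z : Type} {T : X → Y → Z → ℂ} {m : ℕ} (h : Loc T m) (k : ℕ) :
    ∃ (A B C : Type) (_ : Fintype A) (_ : Fintype B) (_ : Fintype C),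
      Fintype.card A = m ^ ((k + 2) / 3 + (k + 1) / 3) ∧
      Fintype.card B = m ^ ((k + 1) / 3 + k / 3) ∧
      Fintype.card C = m ^ ((k + 2) / 3 + k / 3) ∧
      Un (fun (x : Fin k → X) (y : Fin k → Y) (z : Fin k → Z) => ∏ t, T (x t) (y t) (z t)) A B C := by
  induction k with
  | zero =>
    refine ⟨Unit, Unit, Unit, inferInstance, inferInstance, inferInstance, by simp, by simp,
      by simp, fun _ _ _ => 1, fun _ _ _ => 1, fun _ _ _ => 1, ?_⟩
    intro x y z
    simp
  | succ k ih =>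
    obtain ⟨A, B, C, iA, iB, iC, hA, hB, hC, hU⟩ := ih
    have hstep : ∀ (A' B' C' : Type) [Fintype A'] [Fintype B'] [Fintype C'], Un T A' B' C' →
        Un (fun (x : Fin (k + 1) → X) (y : Fin (k + 1) → Y) (z : Fin (k + 1) → Z) =>
          ∏ t, T (x t) (y t) (z t)) (A × A') (B × B') (C × C') := by
      intro A' B' C' _ _ _ h'
      have h1 := (hU.prod h').comp
        (fun x : Fin (k + 1) → X => (fun t : Fin k => x t.castSucc, x (Fin.last k)))
        (fun x : Fin (k + 1) → Y => (fun t : Fin k => x t.castSucc, x (Fin.last k)))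
        (fun x : Fin (k + 1) → Z => (fun t : Fin k => x t.castSucc, x (Fin.last k)))
      obtain ⟨α, β, γ, h2⟩ := h1
      refine ⟨α, β, γ, fun x y z => ?_⟩
      have h4 := h2 x y z
      beta_reduce at h4 ⊢
      rw [Fin.prod_univ_castSucc]
      exact h4
    have h3 : k % 3 = 0 ∨ k % 3 = 1 ∨ k % 3 = 2 := by omega
    rcases h3 with h3 | h3 | h3
    · refine ⟨_, _, _, inferInstance, inferInstance, inferInstance, ?_, ?_, ?_,
        hstep _ _ _ h.un1⟩
      · rw [Fintype.card_prod, hA, Fintype.card_fin, ← pow_succ]; congr 1; omega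
      · rw [Fintype.card_prod, hB, Fintype.card_unit, mul_one]; congr 1; omega
      · rw [Fintype.card_prod, hC, Fintype.card_fin, ← pow_succ]; congr 1; omega
    · refine ⟨_, _, _, inferInstance, inferInstance, inferInstance, ?_, ?_, ?_,
        hstep _ _ _ h.un2⟩
      · rw [Fintype.card_prod, hA, Fintype.card_fin, ← pow_succ]; congr 1; omega
      · rw [Fintype.card_prod, hB, Fintype.card_fin, ← pow_succ]; congr 1; omega
      · rw [Fintype.card_prod, hC, Fintype.card_unit, mul_one]; congr 1; omega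
    · refine ⟨_, _, _, inferInstance, inferInstance, inferInstance, ?_, ?_, ?_,
        hstep _ _ _ h.un3⟩
      · rw [Fintype.card_prod, hA, Fintype.card_unit, mul_one]; congr 1; omega
      · rw [Fintype.card_prod, hB, Fintype.card_fin, ← pow_succ]; congr 1; omega
      · rw [Fintype.card_prod, hC, Fintype.card_fin, ← pow_succ]; congr 1; omega

/-- **Strassen's bound** for the powers of a tensor of format `m × m × m`. -/
lemma Loc.gr {X Y Z : Type} {T : X → Y → Z → ℂ} {m : ℕ} (hm : 1 ≤ m) (h : Loc T m) {τ : ℝ}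
    (hτ : Adm τ) : Gr T ((m : ℝ) ^ (2 * τ / 3)) := by
  classical
  obtain ⟨C, hC1, hC⟩ := hτ.const
  have hτ0 : 0 ≤ τ := omega_nonneg.trans hτ.omega_le
  have hm0 : (0 : ℝ) < m := by exact_mod_cast hm
  have hm1 : (1 : ℝ) ≤ m := by exact_mod_cast hm
  refine ⟨C * (m : ℝ) ^ (2 * τ), fun J _ => ?_⟩
  set k := Fintype.card J with hk
  obtain ⟨A, B, D, iA, iB, iD, hA, hB, hD, hU⟩ := h.pow k
  set M := m ^ (2 * (k / 3 + 1)) with hM
  have hR : HasR (Fin M) (Fin M) (Fin M) (Fin (rk M)) := R.of_hasRank (hasRank_rk M)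
  have hinj : ∀ (S : Type) [Fintype S], Fintype.card S ≤ M → ∃ f : S → Fin M,
      Function.Injective f := by
    intro S _ hS
    refine ⟨fun s => Fin.castLE hS (Fintype.equivFin S s), ?_⟩
    exact (Fin.castLE_injective hS).comp (Fintype.equivFin S).injective
  obtain ⟨f, hf⟩ := hinj A (by rw [hA]; exact Nat.pow_le_pow_right hm (by omega))
  obtain ⟨g, hg⟩ := hinj B (by rw [hB]; exact Nat.pow_le_pow_right hm (by omega))
  obtain ⟨l, hl⟩ := hinj D (by rw [hD]; exact Nat.pow_le_pow_right hm (by omega))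
  have h1 := hU.rank (hR.sub f g l hf hg hl)
  refine ⟨Fin (rk M), inferInstance, ?_, ?_⟩
  · rw [Fintype.card_fin]
    refine (hC M).trans ?_
    have e1 : ((M : ℕ) : ℝ) ^ τ = (m : ℝ) ^ (2 * τ * ((k / 3 : ℕ) + 1)) := by
      rw [hM]
      push_cast
      rw [← Real.rpow_natCast, ← Real.rpow_mul hm0.le]
      congr 1
      push_cast
      ring
    have e2 : (m : ℝ) ^ (2 * τ) * ((m : ℝ) ^ (2 * τ / 3)) ^ k =
        (m : ℝ) ^ (2 * τ + 2 * τ / 3 * k) := by
      rw [← Real.rpow_natCast, ← Real.rpow_mul hm0.le, ← Real.rpow_add hm0]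
    rw [e1, mul_assoc C, e2]
    apply mul_le_mul_of_nonneg_left _ (by linarith)
    apply Real.rpow_le_rpow_of_exponent_le hm1
    have h2 : ((k / 3 : ℕ) : ℝ) ≤ (k : ℝ) / 3 := Nat.cast_div_le
    nlinarith
  · obtain ⟨u, v, w, H⟩ := h1
    let e : Fin k ≃ J := (Fintype.equivFin J).symm
    refine ⟨fun t x => u t (fun s => x (e s)), fun t x => v t (fun s => x (e s)),
      fun t x => w t (fun s => x (e s)), fun x y z => ?_⟩
    rw [← H]
    exact (Equiv.prod_comp e (fun t => T (x t) (y t) (z t))).symm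

/-- The matrix multiplication tensor. -/
def mm (n : ℕ) (x y z : Fin n × Fin n) : ℂ :=
  if x.2 = y.1 ∧ y.2 = z.1 ∧ z.2 = x.1 then 1 else 0

lemma Gr.rk_le {n : ℕ} {v : ℝ} (h : Gr (mm n) v) : ∃ C : ℝ, ∀ N : ℕ,
    (rk (n ^ N) : ℝ) ≤ C * v ^ N := by
  classical
  obtain ⟨C, h⟩ := h
  refine ⟨C, fun N => ?_⟩
  obtain ⟨κ, iκ, h1, u, v', w, H⟩ := h (Fin N)
  have h2 : HasRankT (Fin N → Fin n) κ := by
    refine ⟨fun t i j => u t (fun s => (i s, j s)), fun t i j => v' t (fun s => (i s, j s)),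
      fun t i j => w t (fun s => (i s, j s)), fun i j j' k k' l => ?_⟩
    rw [← H]
    simp only [mm]
    rw [Finset.prod_ite_zero]
    simp only [Finset.prod_const_one, Finset.mem_univ, forall_true_left]
    refine if_congr ?_ rfl rfl
    constructor
    · rintro ⟨rfl, rfl, rfl⟩ s
      exact ⟨rfl, rfl, rfl⟩
    · intro hs
      exact ⟨funext fun s => (hs s).1, funext fun s => (hs s).2.1, funext fun s => (hs s).2.2⟩
  have h3 : rk (n ^ N) ≤ Fintype.card κ :=
    Pool.Agent.H515R2.MMR.rk_le (hasRank_of_hasRankT (by simp) rfl h2)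
  rw [Fintype.card_fin] at h1
  exact le_trans (by exact_mod_cast h3) h1

/-- **Sums of tensors of different formats.** -/
theorem sum_bound {n : ℕ} (hn : 1 ≤ n) {ι : Type} (s : Finset ι)
    (T : ι → Fin n × Fin n → Fin n × Fin n → Fin n × Fin n → ℂ) (m : ι → ℕ)
    (hm : ∀ i ∈ s, 1 ≤ m i) (hT : ∀ i ∈ s, Loc (T i) (m i))
    (h : ∀ x y z, mm n x y z = ∑ i ∈ s, T i x y z) :
    (n : ℝ) ^ omega ≤ ∑ i ∈ s, (m i : ℝ) ^ (2 * omega / 3) := by
  have hne : s.Nonempty := by
    rw [Finset.nonempty_iff_ne_empty]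
    rintro rfl
    have := h (⟨0, hn⟩, ⟨0, hn⟩) (⟨0, hn⟩, ⟨0, hn⟩) (⟨0, hn⟩, ⟨0, hn⟩)
    simp [mm] at this
  have hpos : ∀ τ : ℝ, 0 ≤ τ → 1 ≤ ∑ i ∈ s, (m i : ℝ) ^ (2 * τ / 3) := by
    intro τ hτ
    obtain ⟨i, hi⟩ := hne
    have h1 : (1 : ℝ) ≤ (m i : ℝ) ^ (2 * τ / 3) :=
      Real.one_le_rpow (by exact_mod_cast hm i hi) (by positivity)
    refine h1.trans ?_
    exact Finset.single_le_sum (f := fun i => (m i : ℝ) ^ (2 * τ / 3))
      (fun j _ => by positivity) hi
  rcases Nat.lt_or_ge 1 n with h2 | h2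
  · have hcont : Continuous fun τ : ℝ => ∑ i ∈ s, (m i : ℝ) ^ (2 * τ / 3) := by
      refine continuous_finsetSum _ fun i hi => ?_
      have : (m i : ℝ) ≠ 0 := by
        have := hm i hi
        positivity
      exact (Real.continuous_const_rpow this).comp (by fun_prop)
    refine le_of_adm hcont fun τ hτ => ?_
    have hτ0 : 0 ≤ τ := omega_nonneg.trans hτ.omega_le
    have h3 : Gr (mm n) (∑ i ∈ s, (m i : ℝ) ^ (2 * τ / 3)) := by
      have h4 := Gr.sum s T (fun i => (m i : ℝ) ^ (2 * τ / 3)) (fun i _ => by positivity)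
        (fun i hi => (hT i hi).gr (hm i hi) hτ)
      have h5 : (fun x y z => ∑ i ∈ s, T i x y z) = mm n := by
        funext x y z
        exact (h x y z).symm
      rwa [h5] at h4
    obtain ⟨C, hC⟩ := h3.rk_le
    exact omega_le_of_pows h2 (by have := hpos τ hτ0; linarith) hC
  · have : n = 1 := by omega
    subst this
    simpa using hpos omega omega_nonneg

end Pool.Agent.Run7.h566.MM
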