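import Pool.Agent.Y538.Net.Main
import Pool.Agent.Run7.h566.MM.Sub

/-!
# Networks of smooth gates of different sizes (helper566)
-/

set_option autoImplicit false
set_option linter.unusedSectionVars false

namespace Pool.Agent.Run7.h566.NetV

open Topology Filter Finset
open Pool.Agent.Y538.Net (H2 H2_add H2_smul H2_affine H2_congr H2_comp Pairs)

variable {𝕜 : Type} [NontriviallyNormedField 𝕜] {E : Type} [NormedAddCommGroup E]
  [NormedSpace 𝕜 E]

/-- Linear combinations (with coefficients in `𝕜`) of affine functions of the input and of the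
outputs of the gates with numbers less than `l`; the gate number `s` has `m s` outputs. -/
def Aff (m : ℕ → ℕ) (g : (s : ℕ) → Fin (m s) → E → 𝕜) (l : ℕ) : Submodule 𝕜 (E → 𝕜) :=
  Submodule.span 𝕜 ({f | ∃ (ℓ : E →L[𝕜] 𝕜) (c : 𝕜), f = fun x => ℓ x + c} ∪
    {f | ∃ s < l, ∃ o, f = g s o})

/-- `g l o` is the output number `o` of the gate number `l` of a network with input in the open set
`D`: for `l < L` this gate applies a map `φ : 𝕜 ^ (m l) → 𝕜 ^ (m l)` to `m l` linear combinations of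
affine functions of the input and of the outputs of the previous gates, and `φ` is twice
continuously differentiable at the values that occur. -/
def IsNet (m : ℕ → ℕ) (L : ℕ) (D : Set E) (g : (s : ℕ) → Fin (m s) → E → 𝕜) : Prop :=
  IsOpen D ∧ ∀ l < L, ∃ (u : Fin (m l) → E → 𝕜) (φ : (Fin (m l) → 𝕜) → Fin (m l) → 𝕜),
    (∀ i, u i ∈ Aff m g l) ∧
      ∀ x ∈ D, ContDiffAt 𝕜 2 φ (fun i => u i x) ∧ ∀ o, g l o x = φ (fun i => u i x) o

variable {m : ℕ → ℕ} {L : ℕ}

lemma aff_contDiff {g : (s : ℕ) → Fin (m s) → E → 𝕜} {x : E} {l : ℕ}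
    (hg : ∀ s < l, ∀ o, ContDiffAt 𝕜 2 (g s o) x) : ∀ f ∈ Aff m g l, ContDiffAt 𝕜 2 f x := by
  intro f hf
  unfold Aff at hf
  induction hf using Submodule.span_induction with
  | mem f hf =>
    rcases hf with ⟨ℓ, c, rfl⟩ | ⟨s, hs, o, rfl⟩
    · exact ℓ.contDiff.contDiffAt.add contDiffAt_const
    · exact hg s hs o
  | zero => exact contDiffAt_const (c := (0 : 𝕜))
  | add f f' _ _ h h' => exact h.add h'
  | smul c f _ h => exact h.const_smul c

lemma gates_contDiff {D : Set E} {g : (s : ℕ) → Fin (m s) → E → 𝕜} (hnet : IsNet m L D g) {x : E}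
    (hx : x ∈ D) : ∀ s < L, ∀ o, ContDiffAt 𝕜 2 (g s o) x := by
  intro s
  induction s using Nat.strong_induction_on with
  | _ s ih =>
    intro hs o
    obtain ⟨u, φ, hu, hφ⟩ := hnet.2 s hs
    have h1 : ∀ i, ContDiffAt 𝕜 2 (u i) x := fun i =>
      aff_contDiff (fun s' hs' o' => ih s' hs' (hs'.trans hs) o') _ (hu i)
    have h2 : ContDiffAt 𝕜 2 (fun y => φ (fun i => u i y) o) x := by
      have h3 : ContDiffAt 𝕜 2 (fun y => (fun i => u i y)) x := contDiffAt_pi.mpr h1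
      have h4 := (hφ x hx).1.comp x h3
      exact (contDiffAt_pi.mp h4) o
    refine h2.congr_of_eventuallyEq ?_
    filter_upwards [hnet.1.mem_nhds hx] with y hy
    exact (hφ y hy).2 o

/-- The quadratic terms contributed by the gates. -/
lemma net_hess {D : Set E} {g : (s : ℕ) → Fin (m s) → E → 𝕜} (hnet : IsNet m L D g) {x : E}
    (hx : x ∈ D) : ∃ (U : (s : ℕ) → Fin (m s) → E → 𝕜)
      (β : (s : ℕ) → Fin (m s) → Fin (m s) → Fin (m s) → 𝕜),
      ∀ f ∈ Aff m g L, ∃ C : (s : ℕ) → Fin (m s) → 𝕜, ∀ h1 h2, H2 f x h1 h2 =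
        ∑ s ∈ Finset.range L, ∑ o, C s o * ∑ i, ∑ j, β s o i j * (U s j h1 * U s i h2) := by
  classical
  -- the data of the gates
  have hgd := gates_contDiff hnet hx
  have hdata : ∀ s, ∃ (u : Fin (m s) → E → 𝕜), s < L → (∀ i, u i ∈ Aff m g s) ∧
      ∀ o, ∃ (c : Fin (m s) → 𝕜) (β : Fin (m s) → Fin (m s) → 𝕜), ∀ h1 h2 : E,
        H2 (g s o) x h1 h2 = ∑ i, c i * H2 (u i) x h1 h2 +
          ∑ i, ∑ j, β i j * (fderiv 𝕜 (u j) x h1 * fderiv 𝕜 (u i) x h2) := by
    intro s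
    by_cases hs : s < L
    swap
    · exact ⟨fun _ _ => 0, fun h => absurd h hs⟩
    obtain ⟨u, φ, hu, hφ⟩ := hnet.2 s hs
    refine ⟨u, fun _ => ⟨hu, fun o => ?_⟩⟩
    have h1 : ∀ i, ContDiffAt 𝕜 2 (u i) x := fun i =>
      aff_contDiff (fun s' hs' o' => hgd s' (hs'.trans hs) o') _ (hu i)
    have h2 : ContDiffAt 𝕜 2 (fun y => φ y o) (fun i => u i x) :=
      (contDiffAt_pi.mp (hφ x hx).1) o
    obtain ⟨c, β, h⟩ := H2_comp h1 h2
    refine ⟨c, β, fun h1 h2 => ?_⟩
    rw [← h]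
    have h3 : g s o =ᶠ[𝓝 x] fun y => φ (fun i => u i y) o := by
      filter_upwards [hnet.1.mem_nhds hx] with y hy
      exact (hφ y hy).2 o
    rw [H2_congr h3]
  choose u hu using hdata
  have hdata2 : ∀ s o, ∃ (c : Fin (m s) → 𝕜) (β : Fin (m s) → Fin (m s) → 𝕜), s < L →
      ∀ h1 h2 : E, H2 (g s o) x h1 h2 = ∑ i, c i * H2 (u s i) x h1 h2 +
          ∑ i, ∑ j, β i j * (fderiv 𝕜 (u s j) x h1 * fderiv 𝕜 (u s i) x h2) := by
    intro s o
    by_cases hs : s < L
    · obtain ⟨c, β, h⟩ := (hu s hs).2 o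
      exact ⟨c, β, fun _ => h⟩
    · exact ⟨0, 0, fun h => absurd h hs⟩
  choose c β hβ using hdata2
  refine ⟨fun s i => fderiv 𝕜 (u s i) x, β, ?_⟩
  -- the span of the quadratic terms
  let q : (s : ℕ) → Fin (m s) → (E → E → 𝕜) := fun s o h1 h2 =>
    ∑ i, ∑ j, β s o i j * (fderiv 𝕜 (u s j) x h1 * fderiv 𝕜 (u s i) x h2)
  let Q : ℕ → Submodule 𝕜 (E → E → 𝕜) := fun l => Submodule.span 𝕜 {f | ∃ s < l, ∃ o, f = q s o}
  have hQmono : ∀ {l l' : ℕ}, l ≤ l' → Q l ≤ Q l' := fun h =>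
    Submodule.span_mono fun f ⟨s, hs, o, e⟩ => ⟨s, by omega, o, e⟩
  have hstep : ∀ l ≤ L, (∀ s < l, ∀ o, (fun h1 h2 => H2 (g s o) x h1 h2) ∈ Q l) →
      ∀ f ∈ Aff m g l, (fun h1 h2 => H2 f x h1 h2) ∈ Q l := by
    intro l hl hgates f hf
    have hcd := aff_contDiff (x := x) (l := l) (g := g)
      (fun s hs o => hgd s (by omega) o)
    unfold Aff at hf
    induction hf using Submodule.span_induction with
    | mem f hf =>
      rcases hf with ⟨ℓ, c, rfl⟩ | ⟨s, hs, o, rfl⟩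
      · rw [H2_affine]
        exact Submodule.zero_mem _
      · exact hgates s hs o
    | zero =>
      have : H2 (0 : E → 𝕜) x = 0 := by
        have h := H2_affine (E := E) (0 : E →L[𝕜] 𝕜) 0 x
        have e : (fun y : E => (0 : E →L[𝕜] 𝕜) y + 0) = (0 : E → 𝕜) := by
          funext y; simp
        rw [e] at h
        exact h
      rw [this]
      exact Submodule.zero_mem _
    | add f f' h1 h2 h h' =>
      rw [H2_add (hcd f h1) (hcd f' h2)]
      exact Submodule.add_mem _ h h'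
    | smul c f h1 h =>
      rw [H2_smul c (hcd f h1)]
      exact Submodule.smul_mem _ c h
  have hgates : ∀ s < L, ∀ o, (fun h1 h2 => H2 (g s o) x h1 h2) ∈ Q (s + 1) := by
    intro s
    induction s using Nat.strong_induction_on with
    | _ s ih =>
      intro hs o
      have h1 : ∀ i, (fun h1 h2 => H2 (u s i) x h1 h2) ∈ Q s := by
        intro i
        refine hstep s hs.le (fun s' hs' o' => ?_) _ ((hu s hs).1 i)
        exact hQmono (by omega) (ih s' hs' (by omega) o')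
      have h2 : (fun h1 h2 => H2 (g s o) x h1 h2) =
          ∑ i, c s o i • (fun h1 h2 => H2 (u s i) x h1 h2) + q s o := by
        funext h1 h2
        rw [hβ s o hs h1 h2]
        simp only [Pi.add_apply, Finset.sum_apply, Pi.smul_apply, smul_eq_mul, q]
      rw [h2]
      refine Submodule.add_mem _ (Submodule.sum_mem _ fun i _ =>
        Submodule.smul_mem _ _ (hQmono (Nat.le_succ s) (h1 i))) ?_
      exact Submodule.subset_span ⟨s, Nat.lt_succ_self s, o, rfl⟩
  intro f hf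
  have hf1 : (fun h1 h2 => H2 f x h1 h2) ∈ Q L :=
    hstep L le_rfl (fun s hs o => hQmono (by omega) (hgates s hs o)) f hf
  -- extraction of coefficients
  have hrep : ∀ F ∈ Q L, ∃ C : (s : ℕ) → Fin (m s) → 𝕜,
      F = ∑ s ∈ Finset.range L, ∑ o, C s o • q s o := by
    intro F hF
    induction hF using Submodule.span_induction with
    | mem F hF =>
      obtain ⟨s, hs, o, rfl⟩ := hF
      refine ⟨fun s' o' => if h : s' = s then (if h ▸ o' = o then 1 else 0) else 0, ?_⟩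
      rw [Finset.sum_eq_single s, Finset.sum_eq_single o]
      · simp
      · intro o' _ ho'; simp [ho']
      · simp
      · intro s' _ hs'; simp [hs']
      · intro h; exact absurd (Finset.mem_range.mpr hs) h
    | zero => exact ⟨0, by simp⟩
    | add F F' _ _ hF hF' =>
      obtain ⟨C, rfl⟩ := hF
      obtain ⟨C', rfl⟩ := hF'
      exact ⟨C + C', by simp only [Pi.add_apply, add_smul, Finset.sum_add_distrib]⟩
    | smul c F _ hF =>
      obtain ⟨C, rfl⟩ := hF
      exact ⟨c • C, by simp only [Pi.smul_apply, smul_assoc, Finset.smul_sum]⟩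
  obtain ⟨C, hC⟩ := hrep _ hf1
  refine ⟨C, fun h1 h2 => ?_⟩
  have := congrFun (congrFun hC h1) h2
  rw [this]
  simp only [Finset.sum_apply, Pi.smul_apply, smul_eq_mul, q]

/-- A network for a pair of `n × n` matrices `A, B`: `L` gates, the gate number `l` maps `m l` numbers
to `m l` numbers; it is defined for the pairs in the open set `D`, and the `F i j` are its outputs. -/
structure Network (𝕜 : Type) [NontriviallyNormedField 𝕜] (n : ℕ) where
  /-- the number of gates -/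
  L : ℕ
  /-- the numbers of the inputs and of the outputs of the gates -/
  m : ℕ → ℕ
  pos : ∀ l, 1 ≤ m l
  /-- the domain -/
  D : Set (Pairs 𝕜 n)
  /-- the outputs of the gates -/
  g : (l : ℕ) → Fin (m l) → Pairs 𝕜 n → 𝕜
  isNet : IsNet m L D g
  /-- the outputs of the network -/
  F : Fin n → Fin n → Pairs 𝕜 n → 𝕜
  out : ∀ i j, F i j ∈ Aff m g L

/-- The network gives the product of the matrices of the pair `x`. -/
def Network.Gives {n : ℕ} (N : Network 𝕜 n) (x : Pairs 𝕜 n) : Prop :=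
  x ∈ N.D ∧ ∀ i j, N.F i j x = ∑ k, x.1 i k * x.2 k j

variable {n : ℕ}

/-- Countably many networks which give the product at the points of a set which is not meagre. -/
lemma exists_open (N : ℕ → Network 𝕜 n) (P : ℕ → Prop)
    (hm : ¬ IsMeagre {x : Pairs 𝕜 n | ∃ w, (N w).Gives x ∧ P w}) :
    ∃ (w : ℕ) (x : Pairs 𝕜 n), P w ∧ x ∈ (N w).D ∧
      ∀ᶠ y in 𝓝 x, ∀ i j, (N w).F i j y = ∑ k, y.1 i k * y.2 k j := by
  let Z : ℕ → Set (Pairs 𝕜 n) := fun w => {x | (N w).Gives x ∧ P w}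
  have e : {x : Pairs 𝕜 n | ∃ w, (N w).Gives x ∧ P w} = ⋃ w, Z w := by
    ext x
    simp [Z]
  rw [e] at hm
  obtain ⟨w, hw⟩ : ∃ w, ¬ IsMeagre (Z w) := by
    by_contra hcon
    push Not at hcon
    exact hm (isMeagre_iUnion hcon)
  have hnd : ¬ IsNowhereDense (Z w) := fun h => hw h.isMeagre
  unfold IsNowhereDense at hnd
  obtain ⟨y, hy⟩ := Set.nonempty_iff_ne_empty.mpr hnd
  -- a point of `Z w` in the interior of the closure
  obtain ⟨x, hx1, hx2⟩ := mem_closure_iff.mp (interior_subset hy) _ isOpen_interior hy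
  have hcont : ∀ z ∈ (N w).D, ∀ i j, ContinuousAt ((N w).F i j) z := fun z hz i j =>
    (aff_contDiff (fun s hs o => gates_contDiff (N w).isNet hz s hs o) _
      ((N w).out i j)).continuousAt
  refine ⟨w, x, hx2.2, hx2.1.1, ?_⟩
  filter_upwards [isOpen_interior.mem_nhds hx1, (N w).isNet.1.mem_nhds hx2.1.1] with z hz1 hz2
  intro i j
  have hz3 : z ∈ closure (Z w) := interior_subset hz1
  have hcont2 : ContinuousAt (fun y : Pairs 𝕜 n => ∑ k, y.1 i k * y.2 k j) z := by
    fun_prop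
  have : NeBot (𝓝[Z w] z) := mem_closure_iff_nhdsWithin_neBot.mp hz3
  have t1 : Tendsto ((N w).F i j) (𝓝[Z w] z) (𝓝 ((N w).F i j z)) :=
    (hcont z hz2 i j).mono_left nhdsWithin_le_nhds
  have t2 : Tendsto ((N w).F i j) (𝓝[Z w] z) (𝓝 (∑ k, z.1 i k * z.2 k j)) := by
    refine (hcont2.mono_left nhdsWithin_le_nhds).congr' ?_
    filter_upwards [self_mem_nhdsWithin] with y hy
    exact (hy.1.2 i j).symm
  exact tendsto_nhds_unique t1 t2

open Pool.Agent.H515R2.MMR Pool.Agent.Run7.h566.MM Pool.Agent.Y538.Net in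
/-- **The bound.** -/
theorem bound (σ : 𝕜 →+* ℂ) (hn : 1 ≤ n) (N : Network 𝕜 n) {x0 : Pairs 𝕜 n} (hx : x0 ∈ N.D)
    (hev : ∀ᶠ y in 𝓝 x0, ∀ i j, N.F i j y = ∑ k, y.1 i k * y.2 k j) :
    (n : ℝ) ^ omega ≤ ∑ l ∈ range N.L, (N.m l : ℝ) ^ (2 * omega / 3) := by
  obtain ⟨U, β, hU⟩ := NetV.net_hess N.isNet hx
  have h1 := fun z : Fin n × Fin n => hU (N.F z.2 z.1) (N.out z.2 z.1)
  choose C hC using h1
  refine sum_bound hn (range N.L) (fun s x y z => ∑ o, σ (C z s o) * ∑ i, ∑ j, σ (β s o i j) *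
    (σ (U s j (mu x.1 x.2, 0)) * σ (U s i (0, mu y.1 y.2)))) N.m (fun i _ => N.pos i) ?_ ?_
  · intro s _
    refine ⟨fun j i o => σ (β s o i j), fun j x => σ (U s j (mu x.1 x.2, 0)),
      fun i y => σ (U s i (0, mu y.1 y.2)), fun o z => σ (C z s o), fun x y z => ?_⟩
    simp only [Finset.mul_sum]
    rw [Finset.sum_comm]
    rw [Finset.sum_congr rfl fun i _ => Finset.sum_comm, Finset.sum_comm]
    refine Finset.sum_congr rfl fun j _ => Finset.sum_congr rfl fun i _ =>
      Finset.sum_congr rfl fun o _ => by ring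
  · intro x y z
    have h2 : N.F z.2 z.1 =ᶠ[𝓝 x0] fun y : Pairs 𝕜 n => ∑ m, y.1 z.2 m * y.2 m z.1 := by
      filter_upwards [hev] with y hy
      exact hy z.2 z.1
    have h3 := H2_entry z.2 z.1 x0 x.1 x.2 y.1 y.2
    rw [← H2_congr h2, hC z] at h3
    have h4 := congrArg σ h3
    have h5 : σ (if x.1 = z.2 ∧ x.2 = y.1 ∧ y.2 = z.1 then (1 : 𝕜) else 0) = mm n x y z := by
      unfold mm
      by_cases h : x.2 = y.1 ∧ y.2 = z.1 ∧ z.2 = x.1
      · rw [if_pos h, if_pos ⟨h.2.2.symm, h.1, h.2.1⟩, map_one]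
      · rw [if_neg h, if_neg (fun h' => h ⟨h'.2.1, h'.2.2, h'.1.symm⟩), map_zero]
    rw [h5] at h4
    rw [← h4]
    simp only [map_sum, map_mul]

end Pool.Agent.Run7.h566.NetV
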