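import Pool.Agent.Run7.h566.MM.Units
import Pool.Agent.Y538.Par.Sums

/-!
# Rectangular matrix multiplication on `Fin`: rank, block products, the exponent (helper566)
-/

set_option autoImplicit false

namespace Pool.Agent.Run7.h566.MM

open Finset Filter Pool.Agent.H515R2.MMR Pool.Agent.Y538.Par

/-- `⟨p,q,s⟩` has a decomposition with `r` terms. -/
def R (p q s r : ℕ) : Prop := HasR (Fin p) (Fin q) (Fin s) (Fin r)

/-- `⟨p,q,s⟩` is computed with `k` products of format `⟨a,b,c⟩`. -/
def U (p q s a b c k : ℕ) : Prop :=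
  Units (Fin p) (Fin q) (Fin s) (Fin a) (Fin b) (Fin c) (Fin k)

section
variable {P Q S T P' Q' S' T' A B C κ A' B' C' κ' : Type} [DecidableEq P] [DecidableEq Q]
  [DecidableEq S] [Fintype T] [DecidableEq P'] [DecidableEq Q'] [DecidableEq S'] [Fintype T']
  [Fintype A] [Fintype B] [Fintype C] [Fintype κ] [Fintype A'] [Fintype B'] [Fintype C']
  [Fintype κ']

lemma exists_inj (X : Type) [Fintype X] {p : ℕ} (h : p ≤ Fintype.card X) :
    ∃ f : Fin p → X, Function.Injective f :=
  ⟨fun i => (Fintype.equivFin X).symm (Fin.castLE h i),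
    (Fintype.equivFin X).symm.injective.comp (Fin.castLE_injective h)⟩

lemma HasR.toR [Fintype P] [Fintype Q] [Fintype S] (h : HasR P Q S T) {p q s r : ℕ}
    (hp : p ≤ Fintype.card P) (hq : q ≤ Fintype.card Q) (hs : s ≤ Fintype.card S)
    (hr : Fintype.card T ≤ r) : R p q s r := by
  obtain ⟨f, hf⟩ := exists_inj P hp
  obtain ⟨g, hg⟩ := exists_inj Q hq
  obtain ⟨k, hk⟩ := exists_inj S hs
  have h1 := (h.sub f g k hf hg hk).pad (T' := Fin (r - Fintype.card T))
  have hc : Fintype.card (Fin r) = Fintype.card (T ⊕ Fin (r - Fintype.card T)) := by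
    simp; omega
  exact h1.reindex (Fintype.equivOfCardEq hc)

lemma HasR.rotate (h : HasR P Q S T) : HasR Q S P T := by
  obtain ⟨a, b, c, h⟩ := h
  refine ⟨b, c, a, fun i l j j' k k' => ?_⟩
  have h1 := h k' k l i j j'
  have e : (if j = j' ∧ k = k' ∧ l = i then (1 : ℂ) else 0) =
      if l = i ∧ j = j' ∧ k = k' then 1 else 0 := by
    apply if_congr _ rfl rfl
    tauto
  rw [e, h1]
  refine Finset.sum_congr rfl fun t _ => ?_
  ring

lemma HasR.cube (h : HasR P Q S T) :
    HasR (P × Q × S) (Q × S × P) (S × P × Q) (T × T × T) :=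
  h.prod (h.rotate.prod h.rotate.rotate)

lemma Units.sub (h : Units P Q S A B C κ) (f : P' → P) (g : Q' → Q) (k : S' → S)
    (hf : Function.Injective f) (hg : Function.Injective g) (hk : Function.Injective k) :
    Units P' Q' S' A B C κ := by
  obtain ⟨a, b, c, h⟩ := h
  refine ⟨fun t x y i j => a t x y (f i) (g j), fun t x y i j => b t x y (g i) (k j),
    fun t x y i j => c t x y (k i) (f j), fun i l j j' m m' => ?_⟩
  have := h (f i) (f l) (g j) (g j') (k m) (k m')
  simp only [hf.eq_iff, hg.eq_iff, hk.eq_iff] at this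
  exact this

lemma Units.reindex (h : Units P Q S A B C κ) (e : κ' ≃ κ) : Units P Q S A B C κ' := by
  obtain ⟨a, b, c, h⟩ := h
  refine ⟨fun t => a (e t), fun t => b (e t), fun t => c (e t), fun i l j j' m m' => ?_⟩
  rw [h]
  exact (Equiv.sum_comp e (fun t => ∑ x, ∑ y, ∑ z, a t x y i j * b t y z j' m * c t z x m' l)).symm

lemma Units.pad (h : Units P Q S A B C κ) : Units P Q S A B C (κ ⊕ κ') := by
  obtain ⟨a, b, c, h⟩ := h
  refine ⟨Sum.elim a fun _ _ _ => 0, Sum.elim b fun _ _ _ => 0, Sum.elim c fun _ _ _ => 0,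
    fun i l j j' m m' => ?_⟩
  rw [Fintype.sum_sum_type, h]
  simp

lemma Units.toU [Fintype P] [Fintype Q] [Fintype S] {a b c : ℕ}
    (h : Units P Q S (Fin a) (Fin b) (Fin c) κ) {p q s r : ℕ}
    (hp : p ≤ Fintype.card P) (hq : q ≤ Fintype.card Q) (hs : s ≤ Fintype.card S)
    (hr : Fintype.card κ ≤ r) : U p q s a b c r := by
  obtain ⟨f, hf⟩ := exists_inj P hp
  obtain ⟨g, hg⟩ := exists_inj Q hq
  obtain ⟨k, hk⟩ := exists_inj S hs
  have h1 := (h.sub f g k hf hg hk).pad (κ' := Fin (r - Fintype.card κ))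
  have hc : Fintype.card (Fin r) = Fintype.card (κ ⊕ Fin (r - Fintype.card κ)) := by
    simp; omega
  exact h1.reindex (Fintype.equivOfCardEq hc)

/-- One unit computes itself. -/
lemma Units.self [DecidableEq A] [DecidableEq B] [DecidableEq C] : Units A B C A B C Unit := by
  refine ⟨fun _ x y i j => if x = i ∧ y = j then 1 else 0,
    fun _ x y i j => if x = i ∧ y = j then 1 else 0,
    fun _ x y i j => if x = i ∧ y = j then 1 else 0, fun i l j j' k k' => ?_⟩
  rw [Fintype.sum_unique, Finset.sum_eq_single i, Finset.sum_eq_single j, Finset.sum_eq_single k]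
  · by_cases h1 : j = j' <;> by_cases h2 : k = k' <;> by_cases h3 : l = i <;>
      simp [h1, h2, h3]
    intro h4
    exact absurd h4.symm h3
  · intro z _ hz
    simp [hz]
  · simp
  · intro y _ hy
    simp [hy]
  · simp
  · intro x _ hx
    simp [hx]
  · simp

end

lemma R.mono {p q s r p' q' s' r' : ℕ} (h : R p q s r) (hp : p' ≤ p) (hq : q' ≤ q)
    (hs : s' ≤ s) (hr : r ≤ r') : R p' q' s' r' :=
  HasR.toR h (by simpa using hp) (by simpa using hq) (by simpa using hs) (by simpa using hr)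

lemma R.mul {p q s r p' q' s' r' : ℕ} (h : R p q s r) (h' : R p' q' s' r') :
    R (p * p') (q * q') (s * s') (r * r') :=
  HasR.toR (HasR.prod h h') (by simp) (by simp) (by simp) (by simp)

lemma R.triv (p q s : ℕ) : R p q s (p * q * s) :=
  HasR.toR (HasR.trivial (P := Fin p) (Q := Fin q) (S := Fin s)) (by simp) (by simp) (by simp)
    (by simp [mul_assoc])

lemma R.hasRank {n r : ℕ} (h : R n n n r) : HasRank n r := by
  obtain ⟨a, b, c, h⟩ := h
  exact ⟨a, b, c, fun i j j' k k' l => h i l j j' k k'⟩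

lemma R.of_hasRank {n r : ℕ} (h : HasRank n r) : R n n n r := by
  obtain ⟨a, b, c, h⟩ := h
  exact ⟨a, b, c, fun i l j j' k k' => h i j j' k k' l⟩

lemma R.cube {p q s r : ℕ} (h : R p q s r) : HasRank (p * q * s) (r ^ 3) := by
  apply R.hasRank
  refine HasR.toR (HasR.cube h) ?_ ?_ ?_ ?_
  · simp [mul_assoc]
  · simp only [Fintype.card_prod, Fintype.card_fin]; apply le_of_eq; ring
  · simp only [Fintype.card_prod, Fintype.card_fin]; apply le_of_eq; ring
  · simp only [Fintype.card_prod, Fintype.card_fin]; apply le_of_eq; ring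

lemma R.one_le {p q s r : ℕ} (hp : 1 ≤ p) (hq : 1 ≤ q) (hs : 1 ≤ s) (h : R p q s r) : 1 ≤ r := by
  by_contra h0
  have h0 : r = 0 := by omega
  subst h0
  obtain ⟨a, b, c, hh⟩ := h
  have := hh ⟨0, hp⟩ ⟨0, hp⟩ ⟨0, hq⟩ ⟨0, hq⟩ ⟨0, hs⟩ ⟨0, hs⟩
  simp at this

/-- An exact decomposition is an approximate one. -/
lemma AD_of_hasRank {n r : ℕ} (h : HasRank n r) : AD (Fin n) (Fin r) 0 := by
  obtain ⟨a, b, c, h⟩ := h
  refine ⟨fun t i j => Polynomial.C (a t i j), fun t i j => Polynomial.C (b t i j),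
    fun t i j => Polynomial.C (c t i j),
    fun i j j' k k' l => Polynomial.C (if j = j' ∧ k = k' ∧ l = i then 1 else 0),
    fun i j j' k k' l => ⟨?_, ?_⟩⟩
  · simp only [pow_zero, one_mul, h, map_sum, map_mul]
  · simp only [Polynomial.eval_C]

lemma omega_le_of_hasRank {n r : ℕ} (hn : 1 ≤ n) (h : HasRank n r) : (n : ℝ) ^ omega ≤ r :=
  AD.omega_le hn (AD_of_hasRank h)

/-- The rectangular form of the lower bound for the rank in terms of the exponent. -/
lemma R.omega_le {p q s r : ℕ} (hp : 1 ≤ p) (hq : 1 ≤ q) (hs : 1 ≤ s) (h : R p q s r) :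
    ((p * q * s : ℕ) : ℝ) ^ omega ≤ (r : ℝ) ^ 3 := by
  have := omega_le_of_hasRank (Nat.mul_pos (Nat.mul_pos hp hq) hs) h.cube
  push_cast at this ⊢
  exact this

lemma U.mono {p q s a b c k p' q' s' k' : ℕ} (h : U p q s a b c k) (hp : p' ≤ p) (hq : q' ≤ q)
    (hs : s' ≤ s) (hk : k ≤ k') : U p' q' s' a b c k' :=
  Units.toU h (by simpa using hp) (by simpa using hq) (by simpa using hs) (by simpa using hk)

lemma U.rank {p q s a b c k r : ℕ} (h : U p q s a b c k) (h' : R a b c r) : R p q s (k * r) :=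
  HasR.toR (Units.rank h h') (by simp) (by simp) (by simp) (by simp)

/-- Change of the index types of the source. -/
lemma U.comp {p q s a b c k p' q' s' k' : ℕ} (h : U (p * a) (q * b) (s * c) a b c k)
    (h' : U (p' * a) (q' * b) (s' * c) a b c k') :
    U (p * p' * a) (q * q' * b) (s * s' * c) a b c (k * k') := by
  have h1 := Units.sub h (P' := Fin p × Fin a) (Q' := Fin q × Fin b) (S' := Fin s × Fin c)
    finProdFinEquiv finProdFinEquiv finProdFinEquiv finProdFinEquiv.injective
    finProdFinEquiv.injective finProdFinEquiv.injective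
  have h2 := Units.sub h' (P' := Fin p' × Fin a) (Q' := Fin q' × Fin b) (S' := Fin s' × Fin c)
    finProdFinEquiv finProdFinEquiv finProdFinEquiv finProdFinEquiv.injective
    finProdFinEquiv.injective finProdFinEquiv.injective
  exact Units.toU (Units.comp h1 h2) (by simp) (by simp) (by simp) (by simp)

lemma U.self (a b c : ℕ) : U a b c a b c 1 :=
  Units.toU (Units.self (A := Fin a) (B := Fin b) (C := Fin c)) (by simp) (by simp) (by simp)
    (by simp)

lemma U.pow {p q s a b c k : ℕ} (h : U (p * a) (q * b) (s * c) a b c k) (N : ℕ) :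
    U (p ^ N * a) (q ^ N * b) (s ^ N * c) a b c (k ^ N) := by
  induction N with
  | zero => simpa using U.self a b c
  | succ N ih =>
    have := U.comp ih h
    simpa only [← pow_succ] using this

lemma R.units {p q s r : ℕ} (h : R p q s r) (a b c : ℕ) :
    U (p * a) (q * b) (s * c) a b c r :=
  Units.toU (HasR.units (A := Fin a) (B := Fin b) (C := Fin c) h) (by simp) (by simp) (by simp)
    (by simp)

lemma U.one_le {p q s a b c k : ℕ} (hp : 1 ≤ p) (hq : 1 ≤ q) (hs : 1 ≤ s)
    (h : U p q s a b c k) : 1 ≤ k := by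
  by_contra h0
  have h0 : k = 0 := by omega
  subst h0
  obtain ⟨a, b, c, hh⟩ := h
  have := hh ⟨0, hp⟩ ⟨0, hp⟩ ⟨0, hq⟩ ⟨0, hq⟩ ⟨0, hs⟩ ⟨0, hs⟩
  simp at this

/-- Block products for large powers: the rank of the powers of the quotient format. -/
lemma U.rank_pow {p q s a b c k : ℕ} (ha : 1 ≤ a) (hb : 1 ≤ b) (hc : 1 ≤ c)
    (h : U p q s a b c k) (N : ℕ) :
    R ((p / a) ^ N) ((q / b) ^ N) ((s / c) ^ N) (k ^ N * (a * b * c)) := by
  have h1 : U (p / a * a) (q / b * b) (s / c * c) a b c k :=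
    h.mono (Nat.div_mul_le_self p a) (Nat.div_mul_le_self q b) (Nat.div_mul_le_self s c) le_rfl
  have h2 := (h1.pow N).rank (R.triv a b c)
  exact h2.mono (Nat.le_mul_of_pos_right _ ha) (Nat.le_mul_of_pos_right _ hb)
    (Nat.le_mul_of_pos_right _ hc) le_rfl

end Pool.Agent.Run7.h566.MM
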