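import Pool.Agent.Run7.h566.MM.Num

/-!
# Bilinear algorithms in which few forms of the left factor occur (helper566)
-/

set_option autoImplicit false

namespace Pool.Agent.Run7.h566.MM

open Finset Filter Pool.Agent.H515R2.MMR Pool.Agent.Y538.Par

/-- A decomposition of `⟨P,Q,S⟩` indexed by `T` in which the left form of the term `t` depends only
on the class `f t` in `κ`. -/
def FewR (P Q S T κ : Type) [DecidableEq P] [DecidableEq Q] [DecidableEq S] [Fintype T] : Prop :=
  ∃ (f : T → κ) (a : κ → P → Q → ℂ) (b : T → Q → S → ℂ) (c : T → S → P → ℂ),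
    ∀ (i l : P) (j j' : Q) (k k' : S),
      (if j = j' ∧ k = k' ∧ l = i then (1 : ℂ) else 0) = ∑ t, a (f t) i j * b t j' k * c t k' l

section
variable {P Q S T P' Q' S' T' κ κ' Λ M : Type} [DecidableEq P] [DecidableEq Q]
  [DecidableEq S] [Fintype T] [DecidableEq P'] [DecidableEq Q'] [DecidableEq S'] [Fintype T']

lemma FewR.sub (h : FewR P Q S T κ) (f : P' → P) (g : Q' → Q) (k : S' → S)
    (hf : Function.Injective f) (hg : Function.Injective g) (hk : Function.Injective k) :
    FewR P' Q' S' T κ := by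
  obtain ⟨φ, a, b, c, h⟩ := h
  refine ⟨φ, fun t i j => a t (f i) (g j), fun t i j => b t (g i) (k j),
    fun t i j => c t (k i) (f j), fun i l j j' m m' => ?_⟩
  have := h (f i) (f l) (g j) (g j') (k m) (k m')
  simp only [hf.eq_iff, hg.eq_iff, hk.eq_iff] at this
  exact this

lemma FewR.reindex (h : FewR P Q S T κ) (e : T' ≃ T) (d : κ' ≃ κ) : FewR P Q S T' κ' := by
  obtain ⟨φ, a, b, c, h⟩ := h
  refine ⟨fun t => d.symm (φ (e t)), fun u => a (d u), fun t => b (e t), fun t => c (e t),
    fun i l j j' m m' => ?_⟩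
  rw [h]
  simp only [Equiv.apply_symm_apply]
  exact (Equiv.sum_comp e (fun t => a (φ t) i j * b t j' m * c t m' l)).symm

lemma FewR.prod (h : FewR P Q S T κ) (h' : FewR P' Q' S' T' κ') :
    FewR (P × P') (Q × Q') (S × S') (T × T') (κ × κ') := by
  obtain ⟨φ, a, b, c, h⟩ := h
  obtain ⟨φ', a', b', c', h'⟩ := h'
  refine ⟨fun t => (φ t.1, φ' t.2), fun t i j => a t.1 i.1 j.1 * a' t.2 i.2 j.2,
    fun t i j => b t.1 i.1 j.1 * b' t.2 i.2 j.2,
    fun t i j => c t.1 i.1 j.1 * c' t.2 i.2 j.2, fun i l j j' m m' => ?_⟩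
  have e : (if j = j' ∧ m = m' ∧ l = i then (1 : ℂ) else 0) =
      (if j.1 = j'.1 ∧ m.1 = m'.1 ∧ l.1 = i.1 then (1 : ℂ) else 0) *
      (if j.2 = j'.2 ∧ m.2 = m'.2 ∧ l.2 = i.2 then (1 : ℂ) else 0) := by
    apply ite_split
    simp only [Prod.ext_iff]
    tauto
  rw [e, h, h', Finset.sum_mul_sum, Fintype.sum_prod_type]
  refine Finset.sum_congr rfl fun t _ => Finset.sum_congr rfl fun t' _ => ?_
  ring

/-- If the classes are small then the multiplication with an additional factor `⟨M,M,1⟩` needs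
one product of format `M × M × M` for every class. -/
lemma FewR.units [Fintype Λ] [DecidableEq Λ] [Fintype M] [DecidableEq M] (f : T → Λ)
    (a : Λ → P → Q → ℂ) (b : T → Q → S → ℂ) (c : T → S → P → ℂ)
    (h : ∀ (i l : P) (j j' : Q) (k k' : S), (if j = j' ∧ k = k' ∧ l = i then (1 : ℂ) else 0) =
      ∑ t, a (f t) i j * b t j' k * c t k' l)
    (o : T → M) (ho : ∀ t t', f t = f t' → o t = o t' → t = t') :
    Units (P × M) (Q × M) S M M M Λ := by
  refine ⟨fun u x y i j => if x = i.2 ∧ y = j.2 then a u i.1 j.1 else 0,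
    fun u y z j k => if y = j.2 then ∑ t, (if f t = u ∧ o t = z then b t j.1 k else 0) else 0,
    fun u z x k l => if x = l.2 then ∑ t, (if f t = u ∧ o t = z then c t k l.1 else 0) else 0,
    fun i l j j' k k' => ?_⟩
  have e : (if j = j' ∧ k = k' ∧ l = i then (1 : ℂ) else 0) =
      (if j.2 = j'.2 ∧ l.2 = i.2 then (1 : ℂ) else 0) *
      (if j.1 = j'.1 ∧ k = k' ∧ l.1 = i.1 then (1 : ℂ) else 0) := by
    apply ite_split
    simp only [Prod.ext_iff]
    tauto
  rw [e, h]
  -- the product of the two inner sums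
  have key : ∀ (u : Λ) (z : M),
      (∑ t, (if f t = u ∧ o t = z then b t j'.1 k else 0)) *
        (∑ t, (if f t = u ∧ o t = z then c t k' l.1 else 0)) =
      ∑ t, (if f t = u ∧ o t = z then b t j'.1 k * c t k' l.1 else 0) := by
    intro u z
    rw [Finset.sum_mul_sum]
    refine Finset.sum_congr rfl fun t _ => ?_
    rw [Finset.sum_eq_single_of_mem t (mem_univ t)]
    · by_cases ht : f t = u ∧ o t = z
      · simp [ht]
      · simp [ht]
    · intro t' _ hne
      by_cases ht : f t = u ∧ o t = z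
      · by_cases ht' : f t' = u ∧ o t' = z
        · exact absurd (ho t' t (ht'.1.trans ht.1.symm) (ht'.2.trans ht.2.symm)) hne
        · simp [ht']
      · simp [ht]
  have step : ∀ u : Λ, (∑ x : M, ∑ y : M, ∑ z : M,
      (if x = i.2 ∧ y = j.2 then a u i.1 j.1 else 0) *
      (if y = j'.2 then ∑ t, (if f t = u ∧ o t = z then b t j'.1 k else 0) else 0) *
      (if x = l.2 then ∑ t, (if f t = u ∧ o t = z then c t k' l.1 else 0) else 0)) =
      (if j.2 = j'.2 ∧ l.2 = i.2 then (1 : ℂ) else 0) *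
        ∑ t, (if f t = u then a u i.1 j.1 * b t j'.1 k * c t k' l.1 else 0) := by
    intro u
    rw [Finset.sum_eq_single i.2, Finset.sum_eq_single j.2]
    · by_cases h1 : j.2 = j'.2
      · by_cases h2 : i.2 = l.2
        · simp only [true_and, if_true, h1, h2, mul_assoc, key, one_mul]
          rw [← Finset.mul_sum, Finset.sum_comm, Finset.mul_sum]
          refine Finset.sum_congr rfl fun t _ => ?_
          by_cases h3 : f t = u
          · simp [h3]
          · simp [h3]
        · have h2' : ¬ l.2 = i.2 := fun h => h2 h.symm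
          simp [h2, h2']
      · simp [h1]
    · intro y _ hy
      simp [hy]
    · simp
    · intro x _ hx
      simp [hx]
    · simp
  simp only [step]
  rw [← Finset.mul_sum, Finset.sum_comm]
  congr 1
  refine Finset.sum_congr rfl fun t _ => ?_
  rw [Finset.sum_ite_eq]
  simp

/-- Every class is split in parts of at most `m` elements. -/
lemma exists_split {T κ : Type} [Fintype T] [Fintype κ] [DecidableEq κ] (f : T → κ) (m : ℕ)
    (hm : 1 ≤ m) : ∃ (n : κ → ℕ) (g : T → Σ u : κ, Fin (n u + 1)) (o : T → Fin m),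
      (∀ t, (g t).1 = f t) ∧ (∀ t t', g t = g t' → o t = o t' → t = t') ∧
      (∑ u, n u) * m ≤ Fintype.card T := by
  classical
  let c : κ → ℕ := fun u => Fintype.card {t // f t = u}
  let e : ∀ u, {t // f t = u} ≃ Fin (c u) := fun u => Fintype.equivFin _
  let pos : T → ℕ := fun t => (e (f t) ⟨t, rfl⟩ : ℕ)
  have hpos : ∀ t, pos t < c (f t) := fun t => (e (f t) ⟨t, rfl⟩).2
  refine ⟨fun u => c u / m, fun t => ⟨f t, ⟨pos t / m, ?_⟩⟩, fun t => ⟨pos t % m, ?_⟩,
    fun t => rfl, ?_, ?_⟩
  · exact Nat.lt_succ_of_le (Nat.div_le_div_right (hpos t).le)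
  · exact Nat.mod_lt _ (by omega)
  · intro t t' h1 h2
    have h3 : f t = f t' := congrArg Sigma.fst h1
    have h4 : pos t / m = pos t' / m := by
      have h5 : ∀ (x y : Σ u : κ, Fin (c u / m + 1)), x = y → (x.2 : ℕ) = y.2 := by
        rintro x y rfl; rfl
      exact h5 _ _ h1
    have h6 : pos t % m = pos t' % m := congrArg Fin.val h2
    have h7 : pos t = pos t' := by
      rw [← Nat.div_add_mod (pos t) m, ← Nat.div_add_mod (pos t') m, h4, h6]
    have h8 : ∀ (u : κ) (hu : f t' = u) (hu' : f t = u),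
        ((e u ⟨t, hu'⟩ : ℕ) = (e u ⟨t', hu⟩ : ℕ)) → t = t' := by
      intro u hu hu' h
      have := (e u).injective (Fin.ext h)
      exact congrArg Subtype.val this
    refine h8 (f t') rfl h3 ?_
    have h9 : ∀ (u : κ) (hu : f t = u), (e u ⟨t, hu⟩ : ℕ) = pos t := by
      rintro u rfl; rfl
    rw [h9 _ h3, h7]
  · rw [Finset.sum_mul]
    calc ∑ u, c u / m * m ≤ ∑ u, c u := Finset.sum_le_sum fun u _ => Nat.div_mul_le_self _ _
      _ = Fintype.card T := by
        rw [← Fintype.card_sigma]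
        exact Fintype.card_congr (Equiv.sigmaFiberEquiv f)

end

/-- `⟨p,q,s⟩` has a decomposition with `r` terms and `k` left forms. -/
def Few (p q s r k : ℕ) : Prop := FewR (Fin p) (Fin q) (Fin s) (Fin r) (Fin k)

lemma Few.mul {p q s r k p' q' s' r' k' : ℕ} (h : Few p q s r k) (h' : Few p' q' s' r' k') :
    Few (p * p') (q * q') (s * s') (r * r') (k * k') :=
  ((FewR.prod h h').sub (P' := Fin (p * p')) (Q' := Fin (q * q')) (S' := Fin (s * s'))
    finProdFinEquiv.symm finProdFinEquiv.symm finProdFinEquiv.symm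
    finProdFinEquiv.symm.injective finProdFinEquiv.symm.injective
    finProdFinEquiv.symm.injective).reindex finProdFinEquiv.symm finProdFinEquiv.symm

lemma Few.one : Few 1 1 1 1 1 :=
  ⟨id, fun _ _ _ => 1, fun _ _ _ => 1, fun _ _ _ => 1, fun i l j j' k k' => by
    rw [if_pos ⟨Subsingleton.elim _ _, Subsingleton.elim _ _, Subsingleton.elim _ _⟩]; simp⟩

lemma Few.pow {p q s r k : ℕ} (h : Few p q s r k) (N : ℕ) :
    Few (p ^ N) (q ^ N) (s ^ N) (r ^ N) (k ^ N) := by
  induction N with
  | zero => simpa using Few.one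
  | succ N ih =>
    have := ih.mul h
    simpa only [← pow_succ] using this

/-- Lifting with `⟨m,m,1⟩`. -/
lemma Few.lift {p q s r k m ρ : ℕ} (h : Few p q s r k) (hm : 1 ≤ m) (hρ : R m m m ρ) :
    R (p * m) (q * m) s ((r / m + k) * ρ) := by
  classical
  obtain ⟨f, a, b, c, h⟩ := h
  obtain ⟨n, g, o, hg, ho, hn⟩ := exists_split f m hm
  have h1 : Units (Fin p × Fin m) (Fin q × Fin m) (Fin s) (Fin m) (Fin m) (Fin m)
      (Σ u : Fin k, Fin (n u + 1)) :=
    FewR.units g (fun u => a u.1) b c (fun i l j j' k k' => by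
      rw [h]
      refine Finset.sum_congr rfl fun t _ => ?_
      rw [hg]) o ho
  refine HasR.toR (Units.rank h1 hρ) (by simp) (by simp) (by simp) ?_
  simp only [Fintype.card_prod, Fintype.card_sigma, Fintype.card_fin]
  apply Nat.mul_le_mul_right
  rw [Finset.sum_add_distrib]
  simp only [sum_const, card_univ, Fintype.card_fin, smul_eq_mul, mul_one]
  apply Nat.add_le_add_right
  rw [Nat.le_div_iff_mul_le (by omega)]
  simpa using hn

end Pool.Agent.Run7.h566.MM
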