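import Pool.Agent.Run7.h566.MM.Rep
import Pool.Agent.Run7.h566.MM.Limit

/-!
# Few left forms: the bound (helper566)
-/

set_option autoImplicit false

namespace Pool.Agent.Run7.h566.MM

open Finset Filter Pool.Agent.H515R2.MMR Pool.Agent.Y538.Par

/-- For an admissible exponent. -/
lemma Few.adm {p q s r k : ℕ} (hp : 1 ≤ p) (hq : 1 ≤ q) (hs : 1 ≤ s) (hk : 1 ≤ k) (hkr : k ≤ r)
    (h : Few p q s r k) {τ : ℝ} (hτ : Adm τ) :
    ((p * q * s : ℕ) : ℝ) ^ omega ≤ (k : ℝ) ^ 3 * ((r : ℝ) / k) ^ (3 * τ - 2 * omega) := by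
  obtain ⟨C, hC1, hC⟩ := hτ.const
  have hω := hτ.omega_le
  have hω0 := omega_nonneg
  have hk0 : (0 : ℝ) < k := by exact_mod_cast hk
  have hr0 : (0 : ℝ) < r := by exact_mod_cast (by omega : 0 < r)
  have hrk : (1 : ℝ) ≤ (r : ℝ) / k := by
    rw [le_div_iff₀ hk0, one_mul]
    exact_mod_cast hkr
  set θ : ℝ := 3 * τ - 2 * omega with hθ
  have hθ0 : 0 ≤ θ := by linarith
  have hpqs : 1 ≤ p * q * s := Nat.mul_pos (Nat.mul_pos hp hq) hs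
  have hpqs0 : (0 : ℝ) < ((p * q * s : ℕ) : ℝ) := by exact_mod_cast hpqs
  refine le_of_pow_le_poly (D := 8 * C ^ 3 * 2 ^ θ) (h := 0) (k := 0) (by positivity)
    (by positivity) fun N hN => ?_
  set x : ℝ := ((r : ℝ) / k) ^ N with hx
  have hx1 : 1 ≤ x := one_le_pow₀ hrk
  set m : ℕ := ⌈x⌉₊ with hm
  have hmx : x ≤ m := Nat.le_ceil x
  have hm1 : (1 : ℝ) ≤ m := hx1.trans hmx
  have hm1' : 1 ≤ m := by exact_mod_cast hm1
  have hm2 : (m : ℝ) ≤ 2 * x := by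
    have := Nat.ceil_lt_add_one (by linarith : (0 : ℝ) ≤ x)
    linarith
  have h1 := (h.pow N).lift hm1' (R.of_hasRank (hasRank_rk m))
  have h2 : r ^ N / m ≤ k ^ N := by
    have h3 : r ^ N ≤ k ^ N * m := by
      have h4 : (r : ℝ) ^ N ≤ (k : ℝ) ^ N * m := by
        have h5 : (r : ℝ) ^ N = (k : ℝ) ^ N * x := by
          rw [hx, div_pow]
          field_simp
        rw [h5]
        exact mul_le_mul_of_nonneg_left hmx (by positivity)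
      exact_mod_cast h4
    exact Nat.div_le_of_le_mul (by rw [mul_comm]; exact h3)
  have h6 : R (p ^ N * m) (q ^ N * m) (s ^ N) (2 * k ^ N * rk m) := by
    refine h1.mono le_rfl le_rfl le_rfl ?_
    apply Nat.mul_le_mul_right
    omega
  have h7 := h6.omega_le (Nat.mul_pos (Nat.pow_pos hp) hm1') (Nat.mul_pos (Nat.pow_pos hq) hm1')
    (Nat.pow_pos hs)
  have hm0 : (0 : ℝ) < m := by linarith
  have e1 : ((p ^ N * m * (q ^ N * m) * s ^ N : ℕ) : ℝ) ^ omega =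
      (((p * q * s : ℕ) : ℝ) ^ omega) ^ N * ((m : ℝ) ^ omega) ^ 2 := by
    have : ((p ^ N * m * (q ^ N * m) * s ^ N : ℕ) : ℝ) =
        (((p * q * s : ℕ) : ℝ)) ^ N * ((m : ℝ)) ^ 2 := by
      push_cast; ring
    rw [this, Real.mul_rpow (by positivity) (by positivity)]
    congr 1
    · rw [← Real.rpow_natCast, ← Real.rpow_natCast, ← Real.rpow_mul hpqs0.le,
        ← Real.rpow_mul hpqs0.le, mul_comm (N : ℝ) omega]
    · rw [← Real.rpow_natCast, ← Real.rpow_natCast, ← Real.rpow_mul hm0.le,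
        ← Real.rpow_mul hm0.le, mul_comm]
  rw [e1] at h7
  have h8 : (((2 * k ^ N * rk m : ℕ) : ℝ)) ^ 3 ≤
      8 * C ^ 3 * ((k : ℝ) ^ 3) ^ N * (m : ℝ) ^ (3 * τ) := by
    have h9 : ((rk m : ℝ)) ^ 3 ≤ (C * (m : ℝ) ^ τ) ^ 3 :=
      pow_le_pow_left₀ (by positivity) (hC m) 3
    have e2 : ((m : ℝ) ^ τ) ^ 3 = (m : ℝ) ^ (3 * τ) := by
      rw [← Real.rpow_natCast, ← Real.rpow_mul hm0.le, mul_comm]
      norm_num
    push_cast
    calc (2 * (k : ℝ) ^ N * (rk m : ℝ)) ^ 3 = 8 * ((k : ℝ) ^ 3) ^ N * (rk m : ℝ) ^ 3 := by ring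
      _ ≤ 8 * ((k : ℝ) ^ 3) ^ N * (C * (m : ℝ) ^ τ) ^ 3 := by
          apply mul_le_mul_of_nonneg_left h9; positivity
      _ = 8 * C ^ 3 * ((k : ℝ) ^ 3) ^ N * (m : ℝ) ^ (3 * τ) := by rw [mul_pow, e2]; ring
  have h10 := h7.trans h8
  have hm3 : ((m : ℝ) ^ omega) ^ 2 = (m : ℝ) ^ (2 * omega) := by
    rw [← Real.rpow_natCast, ← Real.rpow_mul hm0.le, mul_comm]
    norm_num
  rw [hm3] at h10
  have hpos : 0 < (m : ℝ) ^ (2 * omega) := Real.rpow_pos_of_pos hm0 _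
  have h11 : (((p * q * s : ℕ) : ℝ) ^ omega) ^ N ≤
      8 * C ^ 3 * ((k : ℝ) ^ 3) ^ N * (m : ℝ) ^ θ := by
    have e3 : (m : ℝ) ^ (3 * τ) = (m : ℝ) ^ θ * (m : ℝ) ^ (2 * omega) := by
      rw [← Real.rpow_add hm0, hθ]
      congr 1; ring
    rw [e3, ← mul_assoc] at h10
    exact le_of_mul_le_mul_right h10 hpos
  have h12 : (m : ℝ) ^ θ ≤ 2 ^ θ * (((r : ℝ) / k) ^ θ) ^ N := by
    calc (m : ℝ) ^ θ ≤ (2 * x) ^ θ := Real.rpow_le_rpow hm0.le hm2 hθ0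
      _ = 2 ^ θ * x ^ θ := Real.mul_rpow (by norm_num) (by linarith)
      _ = 2 ^ θ * (((r : ℝ) / k) ^ θ) ^ N := by
        congr 1
        rw [hx, ← Real.rpow_natCast, ← Real.rpow_natCast, ← Real.rpow_mul (by positivity),
          ← Real.rpow_mul (by positivity), mul_comm]
  calc (((p * q * s : ℕ) : ℝ) ^ omega) ^ N ≤ 8 * C ^ 3 * ((k : ℝ) ^ 3) ^ N * (m : ℝ) ^ θ := h11
    _ ≤ 8 * C ^ 3 * ((k : ℝ) ^ 3) ^ N * (2 ^ θ * (((r : ℝ) / k) ^ θ) ^ N) := by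
        apply mul_le_mul_of_nonneg_left h12; positivity
    _ = 8 * C ^ 3 * 2 ^ θ * ((N : ℝ) * (0 : ℕ) + 1) ^ 0 *
        ((k : ℝ) ^ 3 * ((r : ℝ) / k) ^ θ) ^ N := by
        rw [mul_pow]; ring

/-- **Few left forms.** -/
theorem Few.bound {p q s r k : ℕ} (hp : 1 ≤ p) (hq : 1 ≤ q) (hs : 1 ≤ s) (hk : 1 ≤ k)
    (hkr : k ≤ r) (h : Few p q s r k) :
    ((p * q * s : ℕ) : ℝ) ^ omega ≤ (k : ℝ) ^ (3 - omega) * (r : ℝ) ^ omega := by
  have hk0 : (0 : ℝ) < k := by exact_mod_cast hk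
  have hr0 : (0 : ℝ) < r := by exact_mod_cast (by omega : 0 < r)
  have h1 : ((p * q * s : ℕ) : ℝ) ^ omega ≤
      (k : ℝ) ^ 3 * ((r : ℝ) / k) ^ (3 * omega - 2 * omega) := by
    refine le_of_adm (g := fun τ => (k : ℝ) ^ 3 * ((r : ℝ) / k) ^ (3 * τ - 2 * omega)) ?_
      fun τ hτ => h.adm hp hq hs hk hkr hτ
    refine continuous_const.mul ?_
    exact (Real.continuous_const_rpow (by positivity)).comp (by fun_prop)
  have e : (k : ℝ) ^ 3 * ((r : ℝ) / k) ^ (3 * omega - 2 * omega) =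
      (k : ℝ) ^ (3 - omega) * (r : ℝ) ^ omega := by
    rw [show 3 * omega - 2 * omega = omega by ring, Real.div_rpow hr0.le hk0.le,
      Real.rpow_sub hk0]
    have : (k : ℝ) ^ (3 : ℝ) = (k : ℝ) ^ 3 := by exact_mod_cast Real.rpow_natCast (k : ℝ) 3
    rw [this]
    have := Real.rpow_pos_of_pos hk0 omega
    field_simp
  rw [← e]
  exact h1

end Pool.Agent.Run7.h566.MM
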