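import Mathlib

/-!
# Rectangular matrix multiplication: rank and block products (helper566)
-/

set_option autoImplicit false

namespace Pool.Agent.Run7.h566.MM

open Finset

/-- The tensor of the multiplication of `P × Q` by `Q × S` matrices is a sum of rank one tensors,
indexed by `T`. -/
def HasR (P Q S T : Type) [DecidableEq P] [DecidableEq Q] [DecidableEq S] [Fintype T] : Prop :=
  ∃ (a : T → P → Q → ℂ) (b : T → Q → S → ℂ) (c : T → S → P → ℂ),
    ∀ (i l : P) (j j' : Q) (k k' : S),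
      (if j = j' ∧ k = k' ∧ l = i then (1 : ℂ) else 0) = ∑ t, a t i j * b t j' k * c t k' l

/-- The tensor of the multiplication of `P × Q` by `Q × S` matrices is a sum of tensors, indexed by
`κ`, which arise from the multiplication of `A × B` by `B × C` matrices by linear substitutions. -/
def Units (P Q S A B C κ : Type) [DecidableEq P] [DecidableEq Q] [DecidableEq S] [Fintype A]
    [Fintype B] [Fintype C] [Fintype κ] : Prop :=
  ∃ (α : κ → A → B → P → Q → ℂ) (β : κ → B → C → Q → S → ℂ) (γ : κ → C → A → S → P → ℂ),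
    ∀ (i l : P) (j j' : Q) (k k' : S),
      (if j = j' ∧ k = k' ∧ l = i then (1 : ℂ) else 0) =
        ∑ u, ∑ x, ∑ y, ∑ z, α u x y i j * β u y z j' k * γ u z x k' l

section
variable {P Q S T P' Q' S' T' A B C κ A' B' C' κ' : Type} [DecidableEq P] [DecidableEq Q]
  [DecidableEq S] [Fintype T] [DecidableEq P'] [DecidableEq Q'] [DecidableEq S'] [Fintype T']
  [Fintype A] [Fintype B] [Fintype C] [Fintype κ] [Fintype A'] [Fintype B'] [Fintype C']
  [Fintype κ']

lemma HasR.sub (h : HasR P Q S T) (f : P' → P) (g : Q' → Q) (k : S' → S)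
    (hf : Function.Injective f) (hg : Function.Injective g) (hk : Function.Injective k) :
    HasR P' Q' S' T := by
  obtain ⟨a, b, c, h⟩ := h
  refine ⟨fun t i j => a t (f i) (g j), fun t i j => b t (g i) (k j),
    fun t i j => c t (k i) (f j), fun i l j j' m m' => ?_⟩
  have := h (f i) (f l) (g j) (g j') (k m) (k m')
  simp only [hf.eq_iff, hg.eq_iff, hk.eq_iff] at this
  exact this

lemma HasR.reindex (h : HasR P Q S T) (e : T' ≃ T) : HasR P Q S T' := by
  obtain ⟨a, b, c, h⟩ := h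
  refine ⟨fun t => a (e t), fun t => b (e t), fun t => c (e t), fun i l j j' m m' => ?_⟩
  rw [h]
  exact (Equiv.sum_comp e (fun t => a t i j * b t j' m * c t m' l)).symm

lemma HasR.pad (h : HasR P Q S T) : HasR P Q S (T ⊕ T') := by
  obtain ⟨a, b, c, h⟩ := h
  refine ⟨Sum.elim a fun _ _ _ => 0, Sum.elim b fun _ _ _ => 0, Sum.elim c fun _ _ _ => 0,
    fun i l j j' m m' => ?_⟩
  rw [Fintype.sum_sum_type, h]
  simp

lemma HasR.trivial [Fintype P] [Fintype Q] [Fintype S] : HasR P Q S (P × Q × S) := by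
  refine ⟨fun t i j => if t.1 = i ∧ t.2.1 = j then 1 else 0,
    fun t j k => if t.2.1 = j ∧ t.2.2 = k then 1 else 0,
    fun t k i => if t.2.2 = k ∧ t.1 = i then 1 else 0, fun i l j j' k k' => ?_⟩
  rw [Finset.sum_eq_single (i, j, k)]
  · by_cases h1 : j = j' <;> by_cases h2 : k = k' <;> by_cases h3 : l = i <;>
      simp [h1, h2, h3]
    intro h
    exact absurd h.symm h3
  · rintro ⟨x, y, z⟩ - hne
    by_contra hc
    apply hne
    simp only [mul_ite, mul_one, mul_zero, ite_eq_right_iff, one_ne_zero, imp_false, not_not,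
      not_forall, exists_prop] at hc
    obtain ⟨h3, h2, h1⟩ := hc
    simp [h1.1, h1.2, h2.2]
  · simp

lemma ite_split {p p1 p2 : Prop} [Decidable p] [Decidable p1] [Decidable p2] (h : p ↔ p1 ∧ p2) :
    (if p then (1 : ℂ) else 0) = (if p1 then 1 else 0) * (if p2 then 1 else 0) := by
  by_cases h1 : p1 <;> by_cases h2 : p2 <;> simp [h, h1, h2]

lemma triple_sum {X Y Z : Type} [Fintype X] [Fintype Y] [Fintype Z] (f : X → ℂ) (g : Y → ℂ)
    (h : Z → ℂ) : (∑ x, f x) * (∑ y, g y) * (∑ z, h z) = ∑ x, ∑ y, ∑ z, f x * g y * h z := by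
  rw [Finset.sum_mul_sum, Finset.sum_mul]
  refine Finset.sum_congr rfl fun x _ => ?_
  rw [Finset.sum_mul]
  refine Finset.sum_congr rfl fun y _ => ?_
  rw [Finset.mul_sum]

lemma HasR.prod (h : HasR P Q S T) (h' : HasR P' Q' S' T') :
    HasR (P × P') (Q × Q') (S × S') (T × T') := by
  obtain ⟨a, b, c, h⟩ := h
  obtain ⟨a', b', c', h'⟩ := h'
  refine ⟨fun t i j => a t.1 i.1 j.1 * a' t.2 i.2 j.2, fun t i j => b t.1 i.1 j.1 * b' t.2 i.2 j.2,
    fun t i j => c t.1 i.1 j.1 * c' t.2 i.2 j.2, fun i l j j' m m' => ?_⟩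
  have e : (if j = j' ∧ m = m' ∧ l = i then (1 : ℂ) else 0) =
      (if j.1 = j'.1 ∧ m.1 = m'.1 ∧ l.1 = i.1 then (1 : ℂ) else 0) *
      (if j.2 = j'.2 ∧ m.2 = m'.2 ∧ l.2 = i.2 then (1 : ℂ) else 0) := by
    apply ite_split
    simp only [Prod.ext_iff]
    tauto
  rw [e, h, h', Finset.sum_mul_sum, Fintype.sum_prod_type]
  refine Finset.sum_congr rfl fun t _ => Finset.sum_congr rfl fun t' _ => ?_
  ring

/-- The sum of a trilinear expression over matching indices. -/
lemma HasR.apply [DecidableEq A] [DecidableEq B] [DecidableEq C] {e : ℂ} {a : T → A → B → ℂ}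
    {b : T → B → C → ℂ} {c : T → C → A → ℂ}
    (h : ∀ (i l : A) (j j' : B) (k k' : C),
      e * (if j = j' ∧ k = k' ∧ l = i then (1 : ℂ) else 0) = ∑ t, a t i j * b t j' k * c t k' l)
    (F : A → B → ℂ) (G : B → C → ℂ) (H : C → A → ℂ) :
    e * ∑ x, ∑ y, ∑ z, F x y * G y z * H z x =
      ∑ t, (∑ x, ∑ y, a t x y * F x y) * (∑ y, ∑ z, b t y z * G y z) *
        (∑ z, ∑ x, c t z x * H z x) := by
  have h1 : ∀ t, (∑ x, ∑ y, a t x y * F x y) * (∑ y, ∑ z, b t y z * G y z) *
        (∑ z, ∑ x, c t z x * H z x) =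
      ∑ p : A × B, ∑ q : B × C, ∑ r : C × A, (a t p.1 p.2 * b t q.1 q.2 *
        c t r.1 r.2) * (F p.1 p.2 * G q.1 q.2 * H r.1 r.2) := by
    intro t
    rw [← Fintype.sum_prod_type' (f := fun x y => a t x y * F x y),
      ← Fintype.sum_prod_type' (f := fun x y => b t x y * G x y),
      ← Fintype.sum_prod_type' (f := fun x y => c t x y * H x y), triple_sum]
    refine Finset.sum_congr rfl fun p _ => Finset.sum_congr rfl fun q _ =>
      Finset.sum_congr rfl fun r _ => ?_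
    ring
  simp_rw [h1]
  symm
  rw [Finset.sum_comm]
  have h2 : ∀ p : A × B, (∑ t, ∑ q : B × C, ∑ r : C × A, (a t p.1 p.2 * b t q.1 q.2 *
        c t r.1 r.2) * (F p.1 p.2 * G q.1 q.2 * H r.1 r.2)) =
      e * ∑ z, F p.1 p.2 * G p.2 z * H z p.1 := by
    intro p
    rw [Finset.sum_comm]
    have h3 : ∀ q : B × C, (∑ t, ∑ r : C × A, (a t p.1 p.2 * b t q.1 q.2 *
        c t r.1 r.2) * (F p.1 p.2 * G q.1 q.2 * H r.1 r.2)) =
        e * if p.2 = q.1 then F p.1 p.2 * G p.2 q.2 * H q.2 p.1 else 0 := by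
      intro q
      rw [Finset.sum_comm]
      simp_rw [← Finset.sum_mul, ← h, mul_ite, mul_one, mul_zero, ite_mul, zero_mul]
      rw [Finset.sum_eq_single (q.2, p.1)]
      · by_cases h4 : p.2 = q.1
        · simp [h4]
        · simp [h4]
      · rintro ⟨z, x⟩ - hne
        rw [if_neg]
        rintro ⟨-, h5, h6⟩
        exact hne (Prod.ext h5.symm h6)
      · simp
    simp_rw [h3, ← Finset.mul_sum]
    rw [Fintype.sum_prod_type]
    rw [Finset.sum_eq_single p.2]
    · simp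
    · intro y _ hy
      simp [hy.symm]
    · simp
  simp_rw [h2, ← Finset.mul_sum]
  rw [Fintype.sum_prod_type]

/-- Block products and a decomposition of the block product. -/
lemma Units.rank [DecidableEq A] [DecidableEq B] [DecidableEq C]
    (h : Units P Q S A B C κ) (h' : HasR A B C T) : HasR P Q S (κ × T) := by
  obtain ⟨α, β, γ, h⟩ := h
  obtain ⟨a, b, c, h'⟩ := h'
  refine ⟨fun t i j => ∑ x, ∑ y, a t.2 x y * α t.1 x y i j,
    fun t i j => ∑ x, ∑ y, b t.2 x y * β t.1 x y i j,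
    fun t i j => ∑ x, ∑ y, c t.2 x y * γ t.1 x y i j, fun i l j j' k k' => ?_⟩
  rw [h, Fintype.sum_prod_type]
  refine Finset.sum_congr rfl fun u _ => ?_
  have h'' : ∀ (i l : A) (j j' : B) (k k' : C), (1 : ℂ) *
      (if j = j' ∧ k = k' ∧ l = i then (1 : ℂ) else 0) = ∑ t, a t i j * b t j' k * c t k' l := by
    intro i l j j' k k'
    rw [one_mul]
    exact h' i l j j' k k'
  have h3 := HasR.apply h'' (fun x y => α u x y i j) (fun y z => β u y z j' k)
    (fun z x => γ u z x k' l)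
  rw [one_mul] at h3
  exact h3

/-- Composition of block algorithms. -/
lemma Units.comp [DecidableEq A] [DecidableEq B] [DecidableEq C]
    (h : Units (P × A) (Q × B) (S × C) A B C κ) (h' : Units (P' × A) (Q' × B) (S' × C) A B C κ') :
    Units ((P × P') × A) ((Q × Q') × B) ((S × S') × C) A B C (κ × κ') := by
  obtain ⟨α, β, γ, h⟩ := h
  obtain ⟨α', β', γ', h'⟩ := h'
  refine ⟨fun u x y i j => ∑ s, ∑ t, α u.1 x y (i.1.1, s) (j.1.1, t) *
      α' u.2 s t (i.1.2, i.2) (j.1.2, j.2),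
    fun u x y i j => ∑ s, ∑ t, β u.1 x y (i.1.1, s) (j.1.1, t) *
      β' u.2 s t (i.1.2, i.2) (j.1.2, j.2),
    fun u x y i j => ∑ s, ∑ t, γ u.1 x y (i.1.1, s) (j.1.1, t) *
      γ' u.2 s t (i.1.2, i.2) (j.1.2, j.2), fun i l j j' k k' => ?_⟩
  have e : (if j = j' ∧ k = k' ∧ l = i then (1 : ℂ) else 0) =
      (if j.1.1 = j'.1.1 ∧ k.1.1 = k'.1.1 ∧ l.1.1 = i.1.1 then (1 : ℂ) else 0) *
      (if (j.1.2, j.2) = (j'.1.2, j'.2) ∧ (k.1.2, k.2) = (k'.1.2, k'.2) ∧
        (l.1.2, l.2) = (i.1.2, i.2) then (1 : ℂ) else 0) := by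
    apply ite_split
    simp only [Prod.ext_iff]
    tauto
  rw [e, h', Finset.mul_sum, Fintype.sum_prod_type_right]
  refine Finset.sum_congr rfl fun v _ => ?_
  have key : ∀ (a a' : A) (b b' : B) (c c' : C),
      (if j.1.1 = j'.1.1 ∧ k.1.1 = k'.1.1 ∧ l.1.1 = i.1.1 then (1 : ℂ) else 0) *
        (if b = b' ∧ c = c' ∧ a' = a then (1 : ℂ) else 0) =
      ∑ w : κ × A × B × C, α w.1 w.2.1 w.2.2.1 (i.1.1, a) (j.1.1, b) *
        β w.1 w.2.2.1 w.2.2.2 (j'.1.1, b') (k.1.1, c) *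
        γ w.1 w.2.2.2 w.2.1 (k'.1.1, c') (l.1.1, a') := by
    intro a a' b b' c c'
    have h1 := h (i.1.1, a) (l.1.1, a') (j.1.1, b) (j'.1.1, b') (k.1.1, c) (k'.1.1, c')
    rw [← ite_split (p := (j.1.1, b) = (j'.1.1, b') ∧ (k.1.1, c) = (k'.1.1, c') ∧
      (l.1.1, a') = (i.1.1, a)), h1]
    · rw [Fintype.sum_prod_type]
      refine Finset.sum_congr rfl fun u _ => ?_
      rw [Fintype.sum_prod_type]
      refine Finset.sum_congr rfl fun x _ => ?_
      rw [Fintype.sum_prod_type]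
    · simp only [Prod.ext_iff]
      tauto
  have h3 := HasR.apply key (fun s t => α' v s t (i.1.2, i.2) (j.1.2, j.2))
    (fun s t => β' v s t (j'.1.2, j'.2) (k.1.2, k.2))
    (fun s t => γ' v s t (k'.1.2, k'.2) (l.1.2, l.2))
  rw [h3, Fintype.sum_prod_type]
  refine Finset.sum_congr rfl fun u _ => ?_
  rw [Fintype.sum_prod_type]
  refine Finset.sum_congr rfl fun x _ => ?_
  rw [Fintype.sum_prod_type]

/-- The block algorithm. -/
lemma HasR.units [DecidableEq A] [DecidableEq B] [DecidableEq C] (h : HasR P Q S T) :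
    Units (P × A) (Q × B) (S × C) A B C T := by
  obtain ⟨a, b, c, h⟩ := h
  refine ⟨fun t x y i j => if x = i.2 ∧ y = j.2 then a t i.1 j.1 else 0,
    fun t x y i j => if x = i.2 ∧ y = j.2 then b t i.1 j.1 else 0,
    fun t x y i j => if x = i.2 ∧ y = j.2 then c t i.1 j.1 else 0, fun i l j j' k k' => ?_⟩
  have e : (if j = j' ∧ k = k' ∧ l = i then (1 : ℂ) else 0) =
      (if j.2 = j'.2 ∧ k.2 = k'.2 ∧ l.2 = i.2 then (1 : ℂ) else 0) *
      (if j.1 = j'.1 ∧ k.1 = k'.1 ∧ l.1 = i.1 then (1 : ℂ) else 0) := by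
    apply ite_split
    simp only [Prod.ext_iff]
    tauto
  rw [e, h, Finset.mul_sum]
  refine Finset.sum_congr rfl fun t _ => ?_
  rw [Finset.sum_eq_single i.2, Finset.sum_eq_single j.2, Finset.sum_eq_single k.2]
  · by_cases h1 : j.2 = j'.2 <;> by_cases h2 : k.2 = k'.2 <;> by_cases h3 : l.2 = i.2 <;>
      simp [h1, h2, h3]
    intro h4
    exact absurd h4.symm h3
  · intro z _ hz
    simp [hz]
  · simp
  · intro y _ hy
    simp [hy]
  · simp
  · intro x _ hx
    simp [hx]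
  · simp

end

end Pool.Agent.Run7.h566.MM
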